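import Pool.Agent.W601.PH.Circ

/-!
From a pointwise bound near infinity to a bound for the mean, general form; real inequalities
(helper618, adapted from `Pool.Agent.W601.PH.Circ`).
-/

set_option autoImplicit false

namespace Pool.Agent.Y618.SA

open Filter Metric Real Set Topology Pool.Agent.H159R3.NV Pool.Agent.W602.NC Pool.Agent.W602.TL

variable {p : ℕ}

/-- from a pointwise bound to a bound for the mean -/
theorem circle3 {d K : ℕ} {C a : ℝ} (hC : 1 ≤ C) (ha : 1 ≤ a) {U : Fin (p + 1) → ℂ → ℂ}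
    (hU : ∀ i, Differentiable ℂ (U i)) {P Q : ℂ → ℂ} (hP : Differentiable ℂ P) (hP0 : P 0 ≠ 0)
    (hQ : Differentiable ℂ Q) (hQ0 : Q 0 ≠ 0)
    (hord : ∀ z, analyticOrderAt Q z ≤ analyticOrderAt P z)
    (hpt : ∀ z ε, a ≤ ‖z‖ → 0 < ε → ε ≤ 1 → GoodAt U z ε →
      ‖P z‖ * sup U z ≤ C * ‖z‖ ^ K * (1 / ε) ^ d * ‖Q z‖) :
    ∃ A B : ℝ, 0 ≤ A ∧ 0 ≤ B ∧ ∀ s ε : ℝ, a ≤ s → 0 < ε → ε ≤ 1 →
      (∀ z, ‖z‖ = s → GoodAt U z ε) → tau U s ≤ A + B * Real.log (1 / ε) + K * Real.log s := by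
  refine ⟨Real.log C + |Real.log ‖P 0 / Q 0‖|, d, ?_, Nat.cast_nonneg _, ?_⟩
  · have := Real.log_nonneg hC
    positivity
  intro s ε has hε hε1 hgood
  have hs1 : 1 ≤ s := ha.trans has
  have hs : 0 < s := by linarith
  have hne : ∀ z, ‖z‖ = s → ∀ i, U i z ≠ 0 :=
    fun z hz i => (hgood z hz).1 i z (mem_closedBall_self hε.le)
  -- Jensen
  have h1 : Real.log ‖P 0 / Q 0‖ ≤ L P s - L Q s := by
    have h2 := jensen_ge (f := fun z => P z / Q z) hs (quot_mero hQ hP)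
      (fun z _ => quot_order (hP.analyticAt z) (hQ.analyticAt z) (finite_order hQ hQ0 z) (hord z))
      ((hP.analyticAt 0).div (hQ.analyticAt 0) hQ0) (div_ne_zero hP0 hQ0)
    rwa [L_quot hQ hP (x := 0) (y := 0) hQ0 hP0 hs.ne'] at h2
  have hGint : CircleIntegrable (fun z => Real.log (sup U z)) 0 s :=
    tau_int hU hs fun z hz => ⟨0, hne z hz 0⟩
  have hQint : CircleIntegrable (fun z => Real.log ‖Q z‖) 0 s := ci_log (mero_of_diff hQ) s
  set c0 : ℝ := Real.log C + K * Real.log s + d * Real.log (1 / ε) with hc0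
  have i3 : CircleIntegrable (fun z => c0 + Real.log ‖Q z‖) 0 s :=
    (circleIntegrable_const _ _ _).add hQint
  have e1 : c0 + L Q s - tau U s
      = Real.circleAverage (fun z => (c0 + Real.log ‖Q z‖) - Real.log (sup U z)) 0 s := by
    rw [Real.circleAverage_fun_sub i3 hGint, Real.circleAverage_fun_add
      (circleIntegrable_const _ _ _) hQint, Real.circleAverage_const]
    rfl
  have h2 : L P s ≤ c0 + L Q s - tau U s := by
    rw [e1]
    apply avg_le_cod (ci_log (mero_of_diff hP) s) (i3.sub hGint) hs.ne'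
    filter_upwards [ne_cod hP hP0 s, ne_cod hQ hQ0 s, self_mem_codiscreteWithin _]
      with z hz hzQ hzs
    have hz' := sph_norm hs hzs
    have h3 := hpt z ε (by rw [hz']; exact has) hε hε1 (hgood z hz')
    rw [hz'] at h3
    have hsp : 0 < sup U z := sup_pos (hne z hz' 0)
    have hPp : 0 < ‖P z‖ := norm_pos_iff.mpr hz
    have hQp : 0 < ‖Q z‖ := norm_pos_iff.mpr hzQ
    have hCs : C * s ^ K ≠ 0 := mul_ne_zero (by linarith) (pow_ne_zero _ hs.ne')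
    have hCe : C * s ^ K * (1 / ε) ^ d ≠ 0 := mul_ne_zero hCs (pow_ne_zero _ (by positivity))
    have h4 := Real.log_le_log (mul_pos hPp hsp) h3
    rw [Real.log_mul hPp.ne' hsp.ne', Real.log_mul hCe hQp.ne',
      Real.log_mul hCs (pow_ne_zero _ (by positivity)),
      Real.log_mul (by linarith) (pow_ne_zero _ hs.ne'), Real.log_pow, Real.log_pow] at h4
    change Real.log ‖P z‖ ≤ (c0 + Real.log ‖Q z‖) - Real.log (sup U z)
    rw [hc0]
    linarith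
  have := neg_abs_le (Real.log ‖P 0 / Q 0‖)
  rw [hc0] at h2
  linarith

theorem real_t {p : ℕ} {X σ C1 E : ℝ} {d A κ : ℕ} {x : Fin (p + 1) → ℝ} {c : Fin (p + 1) → ℕ}
    (hX : 0 ≤ X) (hσ : 0 < σ)
    (hκ : κ + ∑ i, c i + (d + d) * A = (p + 1) * A) (hx0 : ∀ i, 0 ≤ x i) (hxσ : ∀ i, x i ≤ σ)
    (h : X * σ ^ (p + 1) ≤ C1 * E ^ (d + d) * σ ^ (d + d) * ∏ i, x i) :
    X ^ A * (∏ i, x i ^ c i) * σ ^ κ ≤ C1 ^ A * E ^ ((d + d) * A) * ∏ i, x i ^ A := by
  have hR : 0 ≤ ∏ i, x i := Finset.prod_nonneg fun i _ => hx0 i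
  have h1 : (X * σ ^ (p + 1)) ^ A ≤ (C1 * E ^ (d + d) * σ ^ (d + d) * ∏ i, x i) ^ A :=
    pow_le_pow_left₀ (by positivity) h A
  have h2 : ∏ i, x i ^ c i ≤ σ ^ (∑ i, c i) := by
    rw [← Finset.prod_pow_eq_pow_sum]
    exact Finset.prod_le_prod (fun i _ => pow_nonneg (hx0 i) _) fun i _ =>
      pow_le_pow_left₀ (hx0 i) (hxσ i) _
  have hpos : 0 < σ ^ ((d + d) * A) := pow_pos hσ _
  have h3 : (X ^ A * (∏ i, x i ^ c i) * σ ^ κ) * σ ^ ((d + d) * A)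
      ≤ (C1 ^ A * E ^ ((d + d) * A) * ∏ i, x i ^ A) * σ ^ ((d + d) * A) := by
    calc (X ^ A * (∏ i, x i ^ c i) * σ ^ κ) * σ ^ ((d + d) * A)
        ≤ (X ^ A * σ ^ (∑ i, c i) * σ ^ κ) * σ ^ ((d + d) * A) := by gcongr
      _ = X ^ A * σ ^ (κ + ∑ i, c i + (d + d) * A) := by rw [pow_add, pow_add]; ring
      _ = (X * σ ^ (p + 1)) ^ A := by rw [hκ, mul_pow, ← pow_mul]
      _ ≤ (C1 * E ^ (d + d) * σ ^ (d + d) * ∏ i, x i) ^ A := h1
      _ = _ := by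
          rw [mul_pow, mul_pow, mul_pow, ← pow_mul, ← pow_mul, Finset.prod_pow]
          ring
  exact le_of_mul_le_mul_right h3 hpos

theorem real_tr {p : ℕ} {X Y σ s Z D : ℝ} {A κ : ℕ} {x y : Fin (p + 1) → ℝ}
    {c : Fin (p + 1) → ℕ} (hZ : 0 ≤ Z) (hY : 0 ≤ Y) (hX : 0 ≤ X) (hs : 0 ≤ s)
    (hy : ∀ i, 0 ≤ y i) (hx : ∀ i, 0 ≤ x i) (hD : 0 ≤ D)
    (h1 : Y ≤ Z * X) (h2 : ∀ i, y i ≤ Z * x i) (h3 : ∀ i, x i ≤ Z * y i) (h4 : s ≤ Z * σ)
    (h : X ^ A * (∏ i, x i ^ c i) * σ ^ κ ≤ D * ∏ i, x i ^ A) :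
    Y ^ A * (∏ i, y i ^ c i) * s ^ κ ≤
      Z ^ (A + ∑ i, c i + κ + (p + 1) * A) * D * ∏ i, y i ^ A := by
  have k1 : Y ^ A ≤ Z ^ A * X ^ A := by
    rw [← mul_pow]
    exact pow_le_pow_left₀ hY h1 A
  have k2 : ∏ i, y i ^ c i ≤ Z ^ (∑ i, c i) * ∏ i, x i ^ c i := by
    rw [← Finset.prod_pow_eq_pow_sum, ← Finset.prod_mul_distrib]
    refine Finset.prod_le_prod (fun i _ => pow_nonneg (hy i) _) fun i _ => ?_
    rw [← mul_pow]
    exact pow_le_pow_left₀ (hy i) (h2 i) _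
  have k3 : s ^ κ ≤ Z ^ κ * σ ^ κ := by
    rw [← mul_pow]
    exact pow_le_pow_left₀ hs h4 _
  have k4 : ∏ i, x i ^ A ≤ Z ^ ((p + 1) * A) * ∏ i, y i ^ A := by
    have e : Z ^ ((p + 1) * A) = ∏ _i : Fin (p + 1), Z ^ A := by
      rw [Finset.prod_const, Finset.card_univ, Fintype.card_fin, ← pow_mul, mul_comm]
    rw [e, ← Finset.prod_mul_distrib]
    refine Finset.prod_le_prod (fun i _ => pow_nonneg (hx i) _) fun i _ => ?_
    rw [← mul_pow]
    exact pow_le_pow_left₀ (hx i) (h3 i) _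
  have n1 : 0 ≤ ∏ i, y i ^ c i := Finset.prod_nonneg fun i _ => pow_nonneg (hy i) _
  have n2 : 0 ≤ ∏ i, x i ^ c i := Finset.prod_nonneg fun i _ => pow_nonneg (hx i) _
  calc Y ^ A * (∏ i, y i ^ c i) * s ^ κ
      ≤ (Z ^ A * X ^ A) * (Z ^ (∑ i, c i) * ∏ i, x i ^ c i) * (Z ^ κ * σ ^ κ) :=
        mul_le_mul (mul_le_mul k1 k2 n1 (by positivity)) k3 (by positivity) (by positivity)
    _ = Z ^ (A + ∑ i, c i + κ) * (X ^ A * (∏ i, x i ^ c i) * σ ^ κ) := by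
        rw [pow_add, pow_add]; ring
    _ ≤ Z ^ (A + ∑ i, c i + κ) * (D * ∏ i, x i ^ A) :=
        mul_le_mul_of_nonneg_left h (by positivity)
    _ ≤ Z ^ (A + ∑ i, c i + κ) * (D * (Z ^ ((p + 1) * A) * ∏ i, y i ^ A)) :=
        mul_le_mul_of_nonneg_left (mul_le_mul_of_nonneg_left k4 hD) (by positivity)
    _ = _ := by rw [pow_add _ (A + ∑ i, c i + κ)]; ring

/-- The functions of one family are good if the products over all families are good. -/
theorem good_of {ι : Type} [Fintype ι] [DecidableEq ι] {p N : ℕ}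
    (E : Fin (N + 1) ≃ (ι → Fin (p + 1))) (κ : ι → ℕ) (hκ : ∀ t, κ t ≠ 0)
    (G : ι → Fin (p + 1) → ℂ → ℂ) {z : ℂ} {ε : ℝ} (hε : 0 ≤ ε)
    (hgood : GoodAt (fun m z => ∏ t, G t (E m t) z ^ κ t) z ε) (t : ι) : GoodAt (G t) z ε := by
  have hne : ∀ t i, ∀ w ∈ closedBall z ε, G t i w ≠ 0 := by
    intro t i w hw
    have h1 := hgood.1 (E.symm fun _ => i) w hw
    simp only [E.apply_symm_apply] at h1
    have h2 := Finset.prod_ne_zero_iff.mp h1 t (Finset.mem_univ t)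
    exact (pow_ne_zero_iff (hκ t)).mp h2
  refine ⟨hne t, fun i j w hw => ?_⟩
  have key : ∀ w ∈ closedBall z ε, (∏ t', G t' (Function.update (fun _ => i) t j t') w ^ κ t') /
      (∏ t', G t' i w ^ κ t') = (G t j w / G t i w) ^ κ t := by
    intro w hw
    rw [← Finset.prod_div_distrib, Finset.prod_eq_single t]
    · rw [Function.update_self, div_pow]
    · intro t' _ ht'
      rw [Function.update_of_ne ht']
      exact div_self (pow_ne_zero _ (hne t' i w hw))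
    · intro h
      exact absurd (Finset.mem_univ t) h
  have h1 := hgood.2 (E.symm fun _ => i) (E.symm (Function.update (fun _ => i) t j)) w hw
  simp only [E.apply_symm_apply] at h1
  rw [key w hw, key z (mem_closedBall_self hε), norm_pow, norm_pow] at h1
  have h2 : Real.exp 1 ≤ Real.exp 1 ^ κ t :=
    le_self_pow₀ (Real.one_le_exp (by norm_num)) (hκ t)
  have h3 : ‖G t j w / G t i w‖ ^ κ t ≤ (Real.exp 1 * ‖G t j z / G t i z‖) ^ κ t := by
    rw [mul_pow]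
    exact h1.trans (mul_le_mul_of_nonneg_right h2 (by positivity))
  exact (pow_le_pow_iff_left₀ (norm_nonneg _) (by positivity) (hκ t)).mp h3

theorem sup_prod {ι : Type} [Fintype ι] {p N : ℕ}
    (E : Fin (N + 1) → (ι → Fin (p + 1))) (κ : ι → ℕ) (G : ι → Fin (p + 1) → ℂ → ℂ) (z : ℂ) :
    sup (fun m z => ∏ t, G t (E m t) z ^ κ t) z ≤ ∏ t, sup (G t) z ^ κ t := by
  obtain ⟨m, hm⟩ := sup_attained (fun m z => ∏ t, G t (E m t) z ^ κ t) z
  rw [hm, norm_prod]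
  refine Finset.prod_le_prod (fun t _ => norm_nonneg _) fun t _ => ?_
  rw [norm_pow]
  exact pow_le_pow_left₀ (norm_nonneg _) (le_sup (G t) z (E m t)) _

end Pool.Agent.Y618.SA
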