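import Pool.Agent.Y190.AN.Rsl
import Pool.Agent.Y618.SC.AnA

/-!
Several curves near infinity in spaces of polynomials, with a condition on the sum of the contact
orders (helper618, adapted from `Pool.Agent.Y190.AN.RsE`).
-/

set_option autoImplicit false

namespace Pool.Agent.Y618.SA

open Matrix Module Filter Metric Real Set Topology
open Pool.Agent.H159R3.NV Pool.Agent.W602.NC Pool.Agent.W602.TL Pool.Agent.W601.SM
  Pool.Agent.W601.PH Pool.Agent.Y216 Pool.Agent.W603.BP Pool.Agent.Y190.AN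

/-- at most `n` of the values at distinct nodes vanish -/
theorem card_zero_le {n p : ℕ} {u v : Fin (p + 1) → ℂ}
    (huv : ∀ i j, i ≠ j → u i * v j ≠ u j * v i) {x : Fin (n + 1) → ℂ} (hx : x ≠ 0) :
    (Finset.univ.filter fun i => evi u v i x = 0).card ≤ n := by
  classical
  by_contra hcon
  push Not at hcon
  obtain ⟨T, hTJ, hTc⟩ := Finset.exists_subset_card_eq
    (s := Finset.univ.filter fun i => evi u v i x = 0) (n := n + 1) hcon
  refine hx (evi_zero huv (T.orderEmbOfFin hTc).injective fun r => ?_)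
  have h3 := hTJ (T.orderEmbOfFin_mem hTc r)
  rw [Finset.mem_filter] at h3
  exact h3.2

theorem nat_ineq {ι : Type} [Fintype ι] {p : ℕ} (M : ℕ) (c : Fin (p + 1) → ℕ) (d e : ι → ℕ)
    (b : ι → Fin (p + 1) → ℕ)
    (hcard : ∀ t, (Finset.univ.filter fun i => b t i ≠ 0).card ≤ d t)
    (hM : (∀ t i, b t i = 0) ∨ M ≤ ∑ i, c i * ∑ t, e t * b t i) :
    ∑ t, ∑ i, M * e t * b t i ≤
      ∑ t, (M * e t * (∑ i, (b t i - 1)) + ∑ i, (∑ t, e t * d t) * c i * e t * b t i) := by
  rcases hM with hM | hM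
  · refine Finset.sum_le_sum fun t _ => ?_
    have : ∑ i, M * e t * b t i = 0 := Finset.sum_eq_zero fun i _ => by rw [hM t i, mul_zero]
    rw [this]
    exact Nat.zero_le _
  · have h1 : ∀ t, ∑ i, b t i ≤ (∑ i, (b t i - 1)) + d t := by
      intro t
      have h2 : ∑ i, b t i = (∑ i, (b t i - 1)) + ∑ i, (if b t i ≠ 0 then 1 else 0) := by
        rw [← Finset.sum_add_distrib]
        refine Finset.sum_congr rfl fun i _ => ?_
        split_ifs with h <;> omega
      rw [h2, ← Finset.card_filter]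
      exact Nat.add_le_add_left (hcard t) _
    set h : ℕ := ∑ t, e t * d t with hh
    have h3 : ∑ t, ∑ i, M * e t * b t i ≤ ∑ t, (M * e t * (∑ i, (b t i - 1))) + M * h := by
      calc ∑ t, ∑ i, M * e t * b t i = ∑ t, M * e t * ∑ i, b t i :=
            Finset.sum_congr rfl fun t _ => (Finset.mul_sum _ _ _).symm
        _ ≤ ∑ t, M * e t * ((∑ i, (b t i - 1)) + d t) :=
            Finset.sum_le_sum fun t _ => Nat.mul_le_mul_left _ (h1 t)
        _ = _ := by
            rw [hh, Finset.mul_sum, ← Finset.sum_add_distrib]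
            exact Finset.sum_congr rfl fun t _ => by ring
    have h4 : ∑ t, ∑ i, h * c i * e t * b t i = h * ∑ i, c i * ∑ t, e t * b t i := by
      rw [Finset.sum_comm, Finset.mul_sum]
      refine Finset.sum_congr rfl fun i _ => ?_
      rw [Finset.mul_sum, Finset.mul_sum]
      exact Finset.sum_congr rfl fun t _ => by ring
    rw [Finset.sum_add_distrib, h4]
    refine h3.trans (Nat.add_le_add_left ?_ _)
    rw [mul_comm]
    exact Nat.mul_le_mul_left _ hM

theorem pow_key {A B x y r : ℂ} {n : ℕ} (hB : B ≠ 0) (h : x ^ n = r * y ^ n) :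
    (A * x) ^ n = (A / B) ^ n * r * (B * y) ^ n := by
  rw [mul_pow, h, div_pow, mul_pow]
  have : B ^ n ≠ 0 := pow_ne_zero _ hB
  field_simp

/-- The core statement for several curves. -/
theorem core3 {ι : Type} [Fintype ι] [DecidableEq ι] {p : ℕ} {u v : Fin (p + 1) → ℂ}
    (huv : ∀ i j, i ≠ j → u i * v j ≠ u j * v i) {r0 : ℝ} (hr0 : 0 < r0) (M : ℕ)
    (c : Fin (p + 1) → ℕ) (d e : ι → ℕ) (he : ∀ t, 1 ≤ e t)
    (hnum : ∀ t, (∑ t, e t * d t) * (∑ i, c i) + 2 * d t * M < (p + 1) * M)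
    (F : (t : ι) → ℂ → Fin (d t + 1) → ℂ) (hF : ∀ t, ∀ z ∈ Ext r0, AnA (F t) z)
    (hnz : ∀ t, ∀ z ∈ Ext r0, F t z ≠ 0) (hne : ∀ t i, ∃ z ∈ Ext r0, Uf u v (F t) i z ≠ 0)
    (hPne : ∀ t, ∃ z ∈ Ext r0, Pf (F t) z ≠ 0)
    (hM : ∀ z ∈ Ext r0, ∀ b : ι → Fin (p + 1) → ℕ,
      (∀ t i, analyticOrderAt (Uf u v (F t) i) z = b t i) →
      (∀ t i, b t i = 0) ∨ M ≤ ∑ i, c i * ∑ t, e t * b t i)
    (t : ι) (j : Fin (p + 1)) :
    ∃ (κ : ℕ) (R : ℂ → ℂ), κ ≠ 0 ∧ MeromorphicAt (fun w => R w⁻¹) 0 ∧ ∃ R0 : ℝ, ∀ z, R0 < ‖z‖ →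
      ∀ᶠ w in 𝓝[≠] z, Uf u v (F t) j w ^ κ = R w * Uf u v (F t) 0 w ^ κ := by
  set h : ℕ := ∑ t, e t * d t with hh
  have hUan : ∀ t i, AnalyticOnNhd ℂ (Uf u v (F t) i) (Ext r0) :=
    fun t i z hz => evi_an (hF t z hz) i
  have hdn : ∀ t, d t + d t ≤ p + 1 := by
    intro t
    have h1 := hnum t
    have h2 : 2 * d t * M < (p + 1) * M := lt_of_le_of_lt (Nat.le_add_left _ _) h1
    have := lt_of_mul_lt_mul_right h2 (Nat.zero_le _)
    omega
  -- the annulus
  let gg : ι × Option (Fin (p + 1)) → ℂ → ℂ :=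
    fun o => o.2.elim (Pf (F o.1)) fun i => Uf u v (F o.1) i
  have hgg1 : ∀ o ∈ (Finset.univ : Finset (ι × Option (Fin (p + 1)))),
      AnalyticOnNhd ℂ (gg o) (Ext r0) := by
    rintro ⟨t, (_ | i)⟩ _
    · exact fun z hz => Pf_an (hF t z hz)
    · exact hUan t i
  have hgg2 : ∀ o ∈ (Finset.univ : Finset (ι × Option (Fin (p + 1)))),
      ∃ z ∈ Ext r0, gg o z ≠ 0 := by
    rintro ⟨t, (_ | i)⟩ _
    · exact hPne t
    · exact hne t i
  obtain ⟨hG1, hG2⟩ := prod_ne hr0 Finset.univ gg hgg1 hgg2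
  set r' : ℝ := max r0 1 with hr'
  have hr'0 : 0 < r' := lt_of_lt_of_le hr0 (le_max_left _ _)
  have hG3 := ne_on_smaller hr0 (le_max_left r0 1) hG1 hG2
  obtain ⟨r1, r2, h01, h12, hfree⟩ := annulus hr'0 (hG1.mono (Ext_mono (le_max_left r0 1))) hG3
  obtain ⟨a, h1a, ha2⟩ := exists_between h12
  have hr1 : 1 < r1 := lt_of_le_of_lt (le_max_right _ _) h01
  have hr01 : r0 < r1 := lt_of_le_of_lt (le_max_left _ _) h01
  have ha1 : 1 ≤ a := by linarith
  have ha0 : 0 < a := by linarith
  have hra : r0 ≤ a := by linarith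
  have hEa : Ext a ⊆ Ext r0 := Ext_mono hra
  have hbv := fun o => birkhoff (F := gg o) (by linarith : (0 : ℝ) ≤ r1) h1a ha2
    ((hgg1 o (Finset.mem_univ _)).differentiableOn.mono (Ext_mono hr01.le)) (fun z h1 h2 =>
      Finset.prod_ne_zero_iff.mp (hfree z h1 h2) o (Finset.mem_univ o))
  choose k q G hq hG hG0 hvG using hbv
  let H : ι × Option (Fin (p + 1)) → ℂ → ℂ := fun o z => z ^ k o * Complex.exp (q o z⁻¹)
  have hH : ∀ o, Tame a (H o) := fun o => tame_of ha1 (k o) (hq o)
  have hvH : ∀ o, ∀ z ∈ Ext a, gg o z = H o z * G o z := fun o z hz => hvG o z hz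
  obtain ⟨C0, hC0, κ0, hbd, hosc⟩ := tame_uni H hH
  have hpt0 := fun t => Pf_point_at (n := d t) huv (hdn t)
  choose C1 hC1 hpt using hpt0
  -- the exponents
  have hκe : ∀ t, ∃ κ : ℕ, κ ≠ 0 ∧
      κ + ∑ i, h * c i * e t + (d t + d t) * (M * e t) = (p + 1) * (M * e t) := by
    intro t
    obtain ⟨k', hk'⟩ := Nat.exists_eq_add_of_lt (hnum t)
    refine ⟨(k' + 1) * e t, Nat.mul_ne_zero (Nat.succ_ne_zero _)
      (by have := he t; omega), ?_⟩
    have h2 : ∑ i, h * c i * e t = h * (∑ i, c i) * e t := by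
      rw [← Finset.sum_mul, ← Finset.mul_sum]
    rw [h2, ← mul_assoc (p + 1), hk']
    ring
  choose κ hκ0 hκ using hκe
  -- the enumeration
  obtain ⟨N, hN⟩ : ∃ N, Fintype.card (ι → Fin (p + 1)) = N + 1 :=
    ⟨Fintype.card (ι → Fin (p + 1)) - 1, by
      have : 0 < Fintype.card (ι → Fin (p + 1)) := Fintype.card_pos
      omega⟩
  let E0 : Fin (N + 1) ≃ (ι → Fin (p + 1)) := (Fintype.equivFinOfCardEq hN).symm
  let E : Fin (N + 1) ≃ (ι → Fin (p + 1)) := (Equiv.swap 0 (E0.symm fun _ => 0)).trans E0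
  have hE0 : E 0 = fun _ => 0 := by simp [E]
  let Gs : ι → Fin (p + 1) → ℂ → ℂ := fun t i => G (t, some i)
  let g : Fin (N + 1) → ℂ → ℂ := fun m z => ∏ t, Gs t (E m t) z ^ κ t
  have hg : ∀ m, Differentiable ℂ (g m) :=
    fun m => Differentiable.fun_finsetProd fun t _ => (hG _).pow _
  have hG00 : ∀ o, G o 0 ≠ 0 := fun o => hG0 o 0 (by simpa using ha0.le)
  have hg0 : ∀ m, g m 0 ≠ 0 :=
    fun m => Finset.prod_ne_zero_iff.mpr fun t _ => pow_ne_zero _ (hG00 _)
  have hUg : ∀ t i, ∀ z ∈ Ext a, Uf u v (F t) i z = H (t, some i) z * Gs t i z :=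
    fun t i z hz => hvH (t, some i) z hz
  have hPg : ∀ t, ∀ z ∈ Ext a, Pf (F t) z = H (t, none) z * G (t, none) z :=
    fun t z hz => hvH (t, none) z hz
  set B : ℝ := C0 * C0 * Real.exp 1 with hB
  have hB1 : 1 ≤ B := one_le_mul_of_one_le_of_one_le
    (one_le_mul_of_one_le_of_one_le hC0 hC0) (Real.one_le_exp (by norm_num))
  let T : ι → ℕ := fun t => M * e t + ∑ i, h * c i * e t + κ t + (p + 1) * (M * e t)
  let PP : ℂ → ℂ := fun z => ∏ t, (G (t, none) z ^ (M * e t) *
    ∏ i, Gs t i z ^ (h * c i * e t))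
  let QQ : ℂ → ℂ := fun z => ∏ t, ∏ i, Gs t i z ^ (M * e t)
  have hPP : Differentiable ℂ PP := Differentiable.fun_finsetProd fun t _ =>
    ((hG _).pow _).mul (Differentiable.fun_finsetProd fun i _ => (hG _).pow _)
  have hQQ : Differentiable ℂ QQ := Differentiable.fun_finsetProd fun t _ =>
    Differentiable.fun_finsetProd fun i _ => (hG _).pow _
  have hmain := circle3 (p := N) (d := ∑ t, (d t + d t) * (M * e t)) (K := ∑ t, κ0 * T t)
    (C := ∏ t, (C0 ^ T t * C1 t ^ (M * e t) * B ^ ((d t + d t) * (M * e t)))) (a := a + 2)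
    (Finset.prod_induction _ (fun x : ℝ => 1 ≤ x)
      (fun _ _ ha hb => one_le_mul_of_one_le_of_one_le ha hb) le_rfl
      (fun t _ => one_le_mul_of_one_le_of_one_le (one_le_mul_of_one_le_of_one_le
        (one_le_pow₀ hC0) (one_le_pow₀ (hC1 t))) (one_le_pow₀ hB1)))
    (by linarith) hg (P := PP) (Q := QQ) hPP
    (Finset.prod_ne_zero_iff.mpr fun t _ => mul_ne_zero (pow_ne_zero _ (hG00 _))
      (Finset.prod_ne_zero_iff.mpr fun i _ => pow_ne_zero _ (hG00 _))) hQQ
    (Finset.prod_ne_zero_iff.mpr fun t _ =>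
      Finset.prod_ne_zero_iff.mpr fun i _ => pow_ne_zero _ (hG00 _)) ?_ ?_
  rotate_left
  · -- orders
    intro z
    by_cases hz : z ∈ Ext a
    · have hzr := hEa hz
      have hev := (Ext_open a).mem_nhds hz
      have hfin : ∀ t i, ∃ n : ℕ, analyticOrderAt (Uf u v (F t) i) z = n := by
        intro t i
        have h1 : analyticOrderAt (Uf u v (F t) i) z ≠ ⊤ := by
          intro h0
          obtain ⟨z2, hz2, h2⟩ := hne t i
          exact h2 ((hUan t i).eqOn_zero_of_preconnected_of_eventuallyEq_zero (Ext_preconn hr0)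
            hzr (analyticOrderAt_eq_top.mp h0) hz2)
        obtain ⟨n, hn⟩ := ENat.ne_top_iff_exists.mp h1
        exact ⟨n, hn.symm⟩
      choose b hb using hfin
      have hunit : ∀ o, analyticOrderAt (gg o) z = analyticOrderAt (G o) z := by
        intro o
        have e1 : gg o =ᶠ[𝓝 z] H o * G o := by
          filter_upwards [hev] with w hw
          exact hvH o w hw
        rw [analyticOrderAt_congr e1, analyticOrderAt_mul ((hH o).an z hz) ((hG o).analyticAt z),
          ((hH o).an z hz).analyticOrderAt_eq_zero.mpr ((hH o).ne z hz), zero_add]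
      have hgi : ∀ t i, analyticOrderAt (Gs t i) z = b t i := fun t i => by
        rw [← hb t i]
        exact (hunit (t, some i)).symm
      have hpw : ∀ (f : ℂ → ℂ) (n : ℕ), AnalyticAt ℂ f z →
          analyticOrderAt (fun z => f z ^ n) z = n * analyticOrderAt f z := by
        intro f n hf
        have e : (fun z => f z ^ n) = f ^ n := rfl
        rw [e, analyticOrderAt_pow hf, nsmul_eq_mul]
      have hGa : ∀ o, AnalyticAt ℂ (G o) z := fun o => (hG o).analyticAt z
      have h1 : analyticOrderAt QQ z = ((∑ t, ∑ i, M * e t * b t i : ℕ) : ℕ∞) := by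
        rw [analyticOrder_prod Finset.univ (fun t z => ∏ i, Gs t i z ^ (M * e t))
          (fun t _ => Finset.analyticAt_fun_prod _ fun i _ => (hGa _).fun_pow _)]
        push_cast
        refine Finset.sum_congr rfl fun t _ => ?_
        rw [analyticOrder_prod Finset.univ (fun i z => Gs t i z ^ (M * e t))
          (fun i _ => (hGa _).fun_pow _)]
        refine Finset.sum_congr rfl fun i _ => ?_
        rw [hpw _ _ (hGa _), hgi t i]
        push_cast
        rfl
      have h2 : ∀ t, ((∑ i, (b t i - 1) : ℕ) : ℕ∞) ≤ analyticOrderAt (G (t, none)) z := by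
        intro t
        rw [← hunit (t, none)]
        refine Pf_order_at huv (hdn t) (hF t z hzr) (hnz t z hzr) (fun i => b t i - 1) ?_ ?_ ?_
        · intro i hi
          have h3 := (hUan t i z hzr).analyticOrderAt_eq_zero.2 hi
          rw [hb t i] at h3
          have h4 : b t i = 0 := by exact_mod_cast h3
          omega
        · intro i
          have : ((b t i - 1 : ℕ) : ℕ∞) ≤ (b t i : ℕ∞) := by exact_mod_cast Nat.sub_le _ _
          exact this.trans (hb t i).ge
        · intro i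
          have h3 := ord_deriv (hUan t i z hzr)
          have e2 : deriv (Uf u v (F t) i) =ᶠ[𝓝 z] fun z => evi u v i (dF (F t) z) := by
            filter_upwards [(hF t z hzr).ev] with w hw
            exact evi_dl hw i
          rw [analyticOrderAt_congr e2] at h3
          rw [ENat.natCast_sub, Nat.cast_one, tsub_le_iff_right]
          exact (hb t i).ge.trans h3
      have h3 := nat_ineq M c d e b (fun t => by
        refine (Finset.card_le_card fun i hi => ?_).trans (card_zero_le huv (hnz t z hzr))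
        rw [Finset.mem_filter] at hi ⊢
        refine ⟨Finset.mem_univ _, ?_⟩
        by_contra hcon
        have h3 := (hUan t i z hzr).analyticOrderAt_eq_zero.2 hcon
        rw [hb t i] at h3
        exact hi.2 (by exact_mod_cast h3)) (hM z hzr b hb)
      have h4 : ((∑ t, (M * e t * (∑ i, (b t i - 1)) + ∑ i, h * c i * e t * b t i) : ℕ) : ℕ∞) ≤
          analyticOrderAt PP z := by
        rw [analyticOrder_prod Finset.univ (fun t z => G (t, none) z ^ (M * e t) *
          ∏ i, Gs t i z ^ (h * c i * e t)) (fun t _ => ((hGa _).fun_pow _).fun_mul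
            (Finset.analyticAt_fun_prod _ fun i _ => (hGa _).fun_pow _))]
        rw [Nat.cast_sum]
        refine Finset.sum_le_sum fun t _ => ?_
        have e3 : (fun z => G (t, none) z ^ (M * e t) * ∏ i, Gs t i z ^ (h * c i * e t)) =
            (fun z => G (t, none) z ^ (M * e t)) * fun z => ∏ i, Gs t i z ^ (h * c i * e t) :=
          rfl
        rw [e3, analyticOrderAt_mul ((hGa _).fun_pow _)
          (Finset.analyticAt_fun_prod _ fun i _ => (hGa _).fun_pow _), hpw _ _ (hGa _),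
          analyticOrder_prod Finset.univ (fun i z => Gs t i z ^ (h * c i * e t))
          (fun i _ => (hGa _).fun_pow _), Nat.cast_add]
        refine add_le_add ?_ (le_of_eq ?_)
        · rw [Nat.cast_mul]
          exact mul_le_mul_right (h2 t) _
        · rw [Nat.cast_sum]
          refine Finset.sum_congr rfl fun i _ => ?_
          rw [hpw _ _ (hGa _), hgi t i, Nat.cast_mul]
      rw [h1]
      refine le_trans ?_ h4
      exact_mod_cast h3
    · have hza : ‖z‖ ≤ a := not_lt.mp hz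
      have h1 : analyticOrderAt QQ z = 0 := by
        apply AnalyticAt.analyticOrderAt_eq_zero (hQQ.analyticAt z) |>.mpr
        exact Finset.prod_ne_zero_iff.mpr fun t _ => Finset.prod_ne_zero_iff.mpr fun i _ =>
          pow_ne_zero _ (hG0 _ z hza)
      rw [h1]
      exact bot_le
  · -- the pointwise bound
    intro z ε haz hε hε1 hgood0
    have hgood : ∀ t, GoodAt (Gs t) z ε := fun t => good_of E κ hκ0 Gs hε.le hgood0 t
    have hz1' : 1 ≤ ‖z‖ := by linarith
    have hball : ∀ y ∈ closedBall z ε, a + 1 ≤ ‖y‖ ∧ ‖y - z‖ ≤ 1 := by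
      intro y hy
      rw [mem_closedBall, dist_eq_norm] at hy
      refine ⟨?_, hy.trans hε1⟩
      have : ‖z‖ ≤ ‖y‖ + 1 := by
        calc ‖z‖ = ‖y - (y - z)‖ := by congr 1; ring
          _ ≤ ‖y‖ + ‖y - z‖ := norm_sub_le _ _
          _ ≤ _ := by linarith
      linarith
    have hballE : ∀ y ∈ closedBall z ε, y ∈ Ext a := by
      intro y hy
      have := (hball y hy).1
      change a < ‖y‖
      linarith
    have hzm : z ∈ closedBall z ε := mem_closedBall_self hε.le
    have hzE : z ∈ Ext a := hballE z hzm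
    set Z : ℝ := C0 * ‖z‖ ^ κ0 with hZ
    have hZ0 : 0 ≤ Z := by positivity
    have hlow : ∀ o, ‖G o z‖ ≤ Z * ‖gg o z‖ := by
      intro o
      have h1 := (hbd o z (by linarith) hz1').2
      rw [hvH o z hzE, norm_mul]
      calc ‖G o z‖ = 1 * ‖G o z‖ := (one_mul _).symm
        _ ≤ (C0 * ‖z‖ ^ κ0 * ‖H o z‖) * ‖G o z‖ := mul_le_mul_of_nonneg_right h1 (norm_nonneg _)
        _ = _ := by rw [hZ]; ring
    have hup : ∀ t i, ‖Uf u v (F t) i z‖ ≤ Z * ‖Gs t i z‖ := by
      intro t i
      have h1 := (hbd (t, some i) z (by linarith) hz1').1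
      rw [hUg t i z hzE, norm_mul]
      exact mul_le_mul_of_nonneg_right h1 (norm_nonneg _)
    have hper : ∀ t, ‖G (t, none) z‖ ^ (M * e t) * (∏ i, ‖Gs t i z‖ ^ (h * c i * e t)) *
        sup (Gs t) z ^ κ t ≤ Z ^ T t * (C1 t ^ (M * e t) * (B / ε) ^ ((d t + d t) * (M * e t))) *
          ∏ i, ‖Gs t i z‖ ^ (M * e t) := by
      intro t
      have hUne : ∀ i, ∀ w ∈ closedBall z ε, Uf u v (F t) i w ≠ 0 := fun i w hw => by
        rw [hUg t i w (hballE w hw)]
        exact mul_ne_zero ((hH _).ne w (hballE w hw)) ((hgood t).1 i w hw)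
      have hUb : ∀ i j, ∀ w ∈ closedBall z ε, ‖Uf u v (F t) j w / Uf u v (F t) i w‖ ≤
          B * ‖Uf u v (F t) j z / Uf u v (F t) i z‖ := by
        intro i j w hw
        obtain ⟨h1, h2⟩ := hball w hw
        have o1 := (hosc (t, some j) z w haz h2).1
        have o2 := (hosc (t, some i) z w haz h2).2
        have hb' := (hgood t).2 i j w hw
        have n1 : 0 < ‖H (t, some i) w‖ := norm_pos_iff.mpr ((hH _).ne w (hballE w hw))
        have n2 : 0 < ‖H (t, some i) z‖ := norm_pos_iff.mpr ((hH _).ne z hzE)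
        have q1 : ‖Uf u v (F t) j w / Uf u v (F t) i w‖ =
            ‖H (t, some j) w / H (t, some i) w‖ * ‖Gs t j w / Gs t i w‖ := by
          rw [hUg t i w (hballE w hw), hUg t j w (hballE w hw), ← norm_mul]
          exact congrArg norm (mul_div_mul_comm _ _ _ _)
        have q2 : ‖Uf u v (F t) j z / Uf u v (F t) i z‖ =
            ‖H (t, some j) z / H (t, some i) z‖ * ‖Gs t j z / Gs t i z‖ := by
          rw [hUg t i z hzE, hUg t j z hzE, ← norm_mul]
          exact congrArg norm (mul_div_mul_comm _ _ _ _)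
        rw [q1, q2]
        have h3 : ‖H (t, some j) w / H (t, some i) w‖ ≤
            C0 * C0 * ‖H (t, some j) z / H (t, some i) z‖ := by
          rw [norm_div, norm_div, ← mul_div_assoc, div_le_div_iff₀ n1 n2]
          calc ‖H (t, some j) w‖ * ‖H (t, some i) z‖
              ≤ (C0 * ‖H (t, some j) z‖) * (C0 * ‖H (t, some i) w‖) :=
                mul_le_mul o1 o2 (norm_nonneg _) (by positivity)
            _ = _ := by ring
        calc ‖H (t, some j) w / H (t, some i) w‖ * ‖Gs t j w / Gs t i w‖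
            ≤ (C0 * C0 * ‖H (t, some j) z / H (t, some i) z‖) *
              (Real.exp 1 * ‖Gs t j z / Gs t i z‖) :=
              mul_le_mul h3 hb' (norm_nonneg _) (by positivity)
          _ = B * (‖H (t, some j) z / H (t, some i) z‖ * ‖Gs t j z / Gs t i z‖) := by
              rw [hB]; ring
      have hp := hpt t (F t) z ε B hε hε1 hB1 (fun w hw => hF t w (hEa (hballE w hw))) hUne hUb
      have hsp : 0 < sup (Uf u v (F t)) z := sup_pos (hUne 0 z hzm)
      have hC1t : 0 ≤ C1 t := by linarith [hC1 t]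
      have hp2 := real_t (norm_nonneg (Pf (F t) z)) hsp (hκ t)
        (fun i => norm_nonneg (Uf u v (F t) i z))
        (fun i => le_sup (Uf u v (F t)) z i) hp
      have hsup : sup (Gs t) z ≤ Z * sup (Uf u v (F t)) z := by
        obtain ⟨i, hi⟩ := sup_attained (Gs t) z
        rw [hi]
        exact (hlow (t, some i)).trans
          (mul_le_mul_of_nonneg_left (le_sup (Uf u v (F t)) z i) hZ0)
      have hsg : 0 ≤ sup (Gs t) z := (norm_nonneg (Gs t 0 z)).trans (le_sup (Gs t) z 0)
      exact real_tr hZ0 (norm_nonneg (G (t, none) z)) (norm_nonneg (Pf (F t) z)) hsg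
        (fun i => norm_nonneg (Gs t i z)) (fun i => norm_nonneg (Uf u v (F t) i z))
        (by positivity) (hlow (t, none)) (fun i => hlow (t, some i)) (hup t) hsup hp2
    have hsg : ∀ t, 0 ≤ sup (Gs t) z := fun t =>
      (norm_nonneg (Gs t 0 z)).trans (le_sup (Gs t) z 0)
    have nP : ‖PP z‖ = ∏ t, (‖G (t, none) z‖ ^ (M * e t) *
        ∏ i, ‖Gs t i z‖ ^ (h * c i * e t)) := by
      simp only [PP, norm_prod, norm_mul, norm_pow]
    have nQ : ‖QQ z‖ = ∏ t, ∏ i, ‖Gs t i z‖ ^ (M * e t) := by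
      simp only [QQ, norm_prod, norm_pow]
    calc ‖PP z‖ * sup g z ≤ ‖PP z‖ * ∏ t, sup (Gs t) z ^ κ t :=
          mul_le_mul_of_nonneg_left (sup_prod E κ Gs z) (norm_nonneg _)
      _ = ∏ t, (‖G (t, none) z‖ ^ (M * e t) * (∏ i, ‖Gs t i z‖ ^ (h * c i * e t)) *
            sup (Gs t) z ^ κ t) := by rw [nP, ← Finset.prod_mul_distrib]
      _ ≤ ∏ t, (Z ^ T t * (C1 t ^ (M * e t) * (B / ε) ^ ((d t + d t) * (M * e t))) *
          ∏ i, ‖Gs t i z‖ ^ (M * e t)) := by
          refine Finset.prod_le_prod (fun t _ => ?_) fun t _ => hper t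
          have := hsg t
          positivity
      _ = (∏ t, (C0 ^ T t * C1 t ^ (M * e t) * B ^ ((d t + d t) * (M * e t)))) *
            ‖z‖ ^ (∑ t, κ0 * T t) * (1 / ε) ^ (∑ t, (d t + d t) * (M * e t)) * ‖QQ z‖ := by
          rw [nQ, ← Finset.prod_pow_eq_pow_sum, ← Finset.prod_pow_eq_pow_sum,
            ← Finset.prod_mul_distrib, ← Finset.prod_mul_distrib, ← Finset.prod_mul_distrib]
          refine Finset.prod_congr rfl fun t _ => ?_
          have e1 : (B / ε) ^ ((d t + d t) * (M * e t)) =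
              B ^ ((d t + d t) * (M * e t)) * (1 / ε) ^ ((d t + d t) * (M * e t)) := by
            rw [← mul_pow]
            congr 1
            ring
          rw [e1, hZ, mul_pow, ← pow_mul]
          ring
  · obtain ⟨Λ, K1, K2, hBase, hK2, hgr⟩ :=
      log_growth2 hg hg0 (by linarith : (1 : ℝ) ≤ a + 2) hmain
    obtain ⟨R, hR, R0, hRe⟩ := quot_rational hBase hK2 (by linarith : (1 : ℝ) ≤ a + 2) hgr
      (E.symm (Function.update (fun _ => 0) t j))
    let W : ℂ → ℂ := fun z => ∏ t' ∈ Finset.univ.erase t, Gs t' 0 z ^ κ t'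
    have hW : Differentiable ℂ W := Differentiable.fun_finsetProd fun t' _ => (hG _).pow _
    have hW0 : W 0 ≠ 0 := Finset.prod_ne_zero_iff.mpr fun t' _ => pow_ne_zero _ (hG00 _)
    have hWne : ∀ z, ∀ᶠ w in 𝓝[≠] z, W w ≠ 0 := by
      intro z
      rcases (hW.analyticAt z).eventually_eq_zero_or_eventually_ne_zero with h1 | h1
      · exact absurd (analyticOrderAt_eq_top.mpr h1) (finite_order hW hW0 z)
      · exact h1
    have e1 : ∀ z, g (E.symm (Function.update (fun _ => 0) t j)) z = Gs t j z ^ κ t * W z := by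
      intro z
      change ∏ t', Gs t' (E (E.symm (Function.update (fun _ => 0) t j)) t') z ^ κ t' = _
      rw [E.apply_symm_apply, ← Finset.mul_prod_erase Finset.univ _ (Finset.mem_univ t),
        Function.update_self]
      congr 1
      refine Finset.prod_congr rfl fun t' ht' => ?_
      rw [Function.update_of_ne (Finset.ne_of_mem_erase ht')]
    have e2 : ∀ z, g 0 z = Gs t 0 z ^ κ t * W z := by
      intro z
      change ∏ t', Gs t' (E 0 t') z ^ κ t' = _
      rw [hE0, ← Finset.mul_prod_erase Finset.univ _ (Finset.mem_univ t)]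
    refine ⟨κ t, fun z => (H (t, some j) z / H (t, some 0) z) ^ κ t * R z, hκ0 t, ?_,
      max R0 a, ?_⟩
    · apply MeromorphicAt.fun_mul _ hR
      exact ((unit_mero ha0 (k _) (hq _)).fun_div (unit_mero ha0 (k _) (hq _))).fun_pow _
    · intro z hz
      have h3 : ∀ᶠ w in 𝓝 z, max R0 a < ‖w‖ :=
        (continuous_norm.tendsto z).eventually_const_lt hz
      filter_upwards [hWne z, nhdsWithin_le_nhds h3] with w hw1 hw2
      have hz1 : R0 < ‖w‖ := lt_of_le_of_lt (le_max_left _ _) hw2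
      have hzE : w ∈ Ext a := lt_of_le_of_lt (le_max_right _ _) hw2
      have h4 := hRe w hz1
      rw [e1, e2, ← mul_assoc] at h4
      have h5 := mul_right_cancel₀ hw1 h4
      rw [hUg t j w hzE, hUg t 0 w hzE]
      exact pow_key ((hH (t, some 0)).ne w hzE) h5

end Pool.Agent.Y618.SA
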