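import Pool.Agent.Y216.LG.Inf

/-!
The curve of a polynomial over the field of the meromorphic functions near infinity (helper618,
adapted from `Pool.Agent.Y216.LG.Inf`).
-/

set_option autoImplicit false

open Filter Topology Set Metric Polynomial

namespace Pool.Agent.Y618.SA

open FF Pool.Agent.W603.BP Pool.Agent.W601.PH Pool.Agent.Y216 Pool.Agent.Y190.BV
  Pool.Agent.W603.LV Pool.Agent.Y190.AN
open Pool.Agent.W601.SM (dF)

variable {r0 : ℝ} {hr0 : 0 < r0}

theorem cl_pow' {f : ℂ → ℂ} (hf : MeromorphicOn f (exD r0 hr0).U) (n : ℕ) :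
    ∃ hn : MeromorphicOn (fun z => f z ^ n) (exD r0 hr0).U,
      cl (fun z => f z ^ n) hn = cl f hf ^ n := by
  refine ⟨hf.fun_pow n, ?_⟩
  induction n with
  | zero =>
    have h1 : cl (fun z => f z ^ 0) (hf.fun_pow 0) =
        cl (D := exD r0 hr0) (fun _ => 1) (MeromorphicOn.const 1) :=
      cl_eq.2 fun z _ => Filter.Eventually.of_forall fun w => pow_zero _
    rw [h1, cl_const, map_one, pow_zero]
  | succ n ih =>
    have h1 : cl (fun z => f z ^ (n + 1)) (hf.fun_pow (n + 1)) =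
        cl ((fun z => f z ^ n) * f) ((hf.fun_pow n).mul hf) :=
      cl_eq.2 fun z _ => Filter.Eventually.of_forall fun w => pow_succ _ _
    rw [h1, ← cl_mul (hf.fun_pow n) hf, ih, pow_succ]

/-- The curve of a polynomial. -/
theorem prep {R : (MK (exD r0 hr0))[X]} {d : ℕ} (hdeg : R.natDegree = d)
    (hsq : Squarefree R) (hroot : ∀ b : ℂ, R.eval (algebraMap ℂ (MK (exD r0 hr0)) b) ≠ 0)
    {p : ℕ} (a : Fin (p + 1) → ℂ) :
    ∃ (r1 : ℝ) (G : ℂ → Fin (d + 1) → ℂ), r0 < r1 ∧ (∀ z ∈ Ext r1, AnA G z) ∧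
      (∀ z ∈ Ext r1, G z ≠ 0) ∧ (∀ i, ∃ z ∈ Ext r1, Uf (fun _ => 1) a G i z ≠ 0) ∧
      (∃ z ∈ Ext r1, Pf G z ≠ 0) ∧
      (∀ z (hz : z ∈ (exD r0 hr0).U), z ∈ Ext r1 → ∀ i (b : ℕ),
        analyticOrderAt (Uf (fun _ => 1) a G i) z = b → ct (PL hz) R (a i) = b) ∧
      ∀ i (κ : ℕ) (Q : ℂ → ℂ) (R0 : ℝ), κ ≠ 0 → MI Q →
        (∀ z, R0 < ‖z‖ → ∀ᶠ w in 𝓝[≠] z, Uf (fun _ => 1) a G i w ^ κ =
          Q w * Uf (fun _ => 1) a G 0 w ^ κ) →
        R.eval (algebraMap ℂ (MK (exD r0 hr0)) (a i)) /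
          R.eval (algebraMap ℂ (MK (exD r0 hr0)) (a 0)) ∈ Minf r0 hr0 := by
  classical
  have hR0 : R ≠ 0 := by
    rintro rfl
    exact hroot 0 (eval_zero)
  let x : Fin (d + 1) → MK (exD r0 hr0) := fun j => R.coeff j
  have hpx : R = pol x := eq_pol hdeg.le
  have hxl : x (Fin.last d) ≠ 0 := by
    change R.coeff ((Fin.last d : Fin (d + 1)) : ℕ) ≠ 0
    rw [Fin.val_last, ← hdeg, coeff_natDegree]
    exact leadingCoeff_ne_zero.2 hR0
  obtain ⟨r1, h01, s, G, hG, hs, hGan, hGnz, hxG⟩ := primitive hr0 x fun h0 =>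
    hxl (congrFun h0 _)
  let y : Fin (d + 1) → MK (exD r0 hr0) := fun j => cl (fun z => G z j) (hG j)
  have hxy : x = fun j => s * y j := funext hxG
  have hRy : R = C s * pol y := by rw [hpx, hxy, pol_smul]
  have hyl : y (Fin.last d) ≠ 0 := by
    intro h0
    apply hxl
    rw [hxG]
    exact mul_eq_zero_of_right s h0
  have hysq : Squarefree (pol y) := by
    rw [hRy] at hsq
    exact hsq.of_mul_right
  have hyroot : ∀ b : ℂ, (pol y).eval (algebraMap ℂ (MK (exD r0 hr0)) b) ≠ 0 := by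
    intro b h0
    apply hroot b
    rw [hRy, eval_mul, h0, mul_zero]
  -- the linear forms
  let u : Fin (p + 1) → ℂ := fun _ => 1
  have hUM : ∀ i, MeromorphicOn (Uf u a G i) (exD r0 hr0).U := by
    intro i
    have h1 : MeromorphicOn (fun z => ∑ l, rnc d u a i l * G z l) (exD r0 hr0).U :=
      MeromorphicOn.fun_sum fun l => (MeromorphicOn.const _).fun_mul (hG l)
    exact h1
  have hUcl : ∀ i, cl (Uf u a G i) (hUM i) =
      (pol y).eval (algebraMap ℂ (MK (exD r0 hr0)) (a i)) := by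
    intro i
    have h1 := cl_lin (fun l z => G z l) hG (rnc d u a i) (hUM i)
    refine h1.trans ?_
    unfold pol
    rw [eval_finsetSum]
    refine Finset.sum_congr rfl fun l _ => ?_
    rw [eval_mul, eval_C, eval_pow, eval_X, ← map_pow, mul_comm]
    have h2 : rnc d u a i l = a i ^ (l : ℕ) := by
      simp [rnc, u]
    rw [h2]
  have hUne : ∀ i, cl (Uf u a G i) (hUM i) ≠ 0 := fun i => by
    rw [hUcl]
    exact hyroot (a i)
  have hsubU : ∀ z ∈ Ext r1, z ∈ (exD r0 hr0).U := fun z hz => Ext_mono h01.le hz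
  have hne_of : ∀ (f : ℂ → ℂ) (hf : MeromorphicOn f (exD r0 hr0).U), cl f hf ≠ 0 →
      ∃ z ∈ Ext r1, f z ≠ 0 := by
    intro f hf hf0
    by_contra hcon
    push Not at hcon
    obtain ⟨z1, hz1⟩ := Ext_nonempty r1
    apply hf0
    rw [cl_eq_zero]
    refine zero_all hf (hsubU z1 hz1) ?_
    filter_upwards [nhdsWithin_le_nhds ((Ext_open r1).mem_nhds hz1)] with w hw
    exact hcon w hw
  obtain ⟨hPM, hPcl⟩ := cl_Pf G hG
  have hPne : cl (Pf G) hPM ≠ 0 := by
    rw [hPcl]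
    exact res_ne_zero' (D := MDer (exD r0 hr0)) (fun x hx => MDer_eq_zero hx) hyl hysq hyroot
  -- the orders
  have hcnt : ∀ z (hz : z ∈ (exD r0 hr0).U), z ∈ Ext r1 → cnt (PL hz) R = (PL hz).ord s := by
    intro z hz hz1
    apply cnt_unique
    · intro j
      rw [hRy, coeff_C_mul]
      by_cases hj : j < d + 1
      · rw [coeff_pol_lt _ hj]
        have h1 : Ge (PL hz) 0 (y ⟨j, hj⟩) := ge_cl _ (hGan z hz1 ⟨j, hj⟩)
        have h2 : Ge (PL hz) ((PL hz).ord s) s := Or.inr le_rfl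
        have := h2.mul h1
        rwa [add_zero] at this
      · rw [coeff_pol_ge _ (by omega), mul_zero]
        exact Ge.zero
    · obtain ⟨j, hj⟩ := Function.ne_iff.1 (hGnz z hz1)
      have h1 : analyticOrderAt (fun z => G z j) z = ((0 : ℕ) : ℕ∞) := by
        rw [Nat.cast_zero, (hGan z hz1 j).analyticOrderAt_eq_zero]
        exact hj
      have h2 : (PL hz).ord (y j) = 0 := by
        have := ord_cl (hg := hG j) hz (hGan z hz1 j) h1
        exact_mod_cast this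
      have h3 : y j ≠ 0 := by
        intro h0
        have h4 := cl_eq_zero.1 h0 z hz
        have h5 : ∀ᶠ w in 𝓝[≠] z, G w j ≠ 0 :=
          nhdsWithin_le_nhds ((hGan z hz1 j).continuousAt.eventually_ne hj)
        obtain ⟨w, hw1, hw2⟩ := (h4.and h5).exists
        exact hw2 hw1
      refine ⟨(j : ℕ), ?_, ?_⟩
      · rw [hRy, coeff_C_mul, coeff_pol]
        exact mul_ne_zero hs h3
      · rw [hRy, coeff_C_mul, coeff_pol, (PL hz).ord_mul hs h3, h2, add_zero]
  refine ⟨r1, G, h01, hGan, hGnz, fun i => hne_of _ (hUM i) (hUne i), hne_of _ hPM hPne, ?_, ?_⟩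
  · intro z hz hz1 i b hb
    unfold ct
    rw [hcnt z hz hz1, hRy, eval_mul, eval_C, ← hUcl, (PL hz).ord_mul hs (hUne i),
      ord_cl (hg := hUM i) hz (evi_an (hGan z hz1) i) hb]
    ring
  · intro i κ Q R0 hκ hQ hQ'
    have e : R.eval (algebraMap ℂ (MK (exD r0 hr0)) (a i)) /
        R.eval (algebraMap ℂ (MK (exD r0 hr0)) (a 0)) =
        cl (Uf u a G i / Uf u a G 0) ((hUM i).div (hUM 0)) := by
      rw [← cl_div (hUM i) (hUM 0), hUcl, hUcl, hRy, eval_mul, eval_mul, eval_C, eval_C,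
        mul_div_mul_left _ _ hs]
    rw [e]
    refine Minf_closed ?_
    obtain ⟨hn, hcl⟩ := cl_pow' ((hUM i).div (hUM 0)) κ
    refine IsAlgebraic.of_pow (Nat.pos_of_ne_zero hκ) ?_
    rw [← hcl]
    have hmem : cl (fun z => (Uf u a G i / Uf u a G 0) z ^ κ) hn ∈ Minf r0 hr0 := by
      refine mem_of_large (R := Q) (R0 := max R0 r0) hQ fun z hz => ?_
      have hzR : R0 < ‖z‖ := lt_of_le_of_lt (le_max_left _ _) hz
      have hzU : z ∈ (exD r0 hr0).U := lt_of_le_of_lt (le_max_right R0 r0) hz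
      have h2 := (meromorphicOrderAt_ne_top_iff_eventually_ne_zero (hUM 0 z hzU)).1
        (cl_ne_zero (hUne 0) z hzU)
      filter_upwards [h2, hQ' z hzR] with w hw1 hw2
      change (Uf u a G i w / Uf u a G 0 w) ^ κ = Q w
      rw [div_pow, hw2, mul_div_cancel_right₀ _ (pow_ne_zero _ hw1)]
    exact isAlgebraic_algebraMap (⟨_, hmem⟩ : Minf r0 hr0)

end Pool.Agent.Y618.SA
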