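import Pool.Agent.Y190.SC.Stm
import Pool.Agent.Y618.SC.AnB
import Pool.Agent.Y618.SC.AnC

/-!
Polynomials over the field of the meromorphic functions near infinity with a condition on the sum
of the contact orders with constants (helper618; job SC-AN of helper190).
-/

set_option autoImplicit false

open Filter Topology Set Metric Polynomial

namespace Pool.Agent.Y618.SA

open FF Pool.Agent.W603.BP Pool.Agent.W601.PH Pool.Agent.Y216 Pool.Agent.Y190.BV
  Pool.Agent.W603.LV Pool.Agent.Y190.AN Pool.Agent.Y190.SC Pool.Agent.Y216.LG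
open Pool.Agent.W601.SM (dF)

theorem ct_sum {k K : Type} [Field k] [Field K] [Algebra k K] [Infinite k] {H : K[X]}
    {T T1 : Finset K[X]} {e : K[X] → ℕ} {u : K} (hu : u ≠ 0)
    (hT : ∀ p ∈ T, Irreducible p ∧ p.Monic) (hHT : H = C u * ∏ p ∈ T, p ^ e p)
    (he : ∀ p ∈ T, 1 ≤ e p) (hT1T : T1 ⊆ T)
    (hT2 : ∀ p ∈ T, p ∉ T1 → ∃ c : k, p.eval (algebraMap k K c) = 0) (P : Place k K) {y : k}
    (hy : H.eval (algebraMap k K y) ≠ 0) :
    ct P H y = ∑ p ∈ T1, (e p : ℤ) * ct P p y := by
  classical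
  have hpe : ∀ p ∈ T, p.eval (algebraMap k K y) ≠ 0 := by
    intro p hp h0
    apply hy
    rw [hHT, Polynomial.eval_mul, Polynomial.eval_prod, Finset.prod_eq_zero hp, mul_zero]
    rw [Polynomial.eval_pow, h0]
    exact zero_pow (by have := he p hp; omega)
  have h2 : ct P H y = ∑ p ∈ T, (e p : ℤ) * ct P p y := by
    have hprod : (∏ p ∈ T, p ^ e p).eval (algebraMap k K y) ≠ 0 := by
      rw [Polynomial.eval_prod]
      refine Finset.prod_ne_zero_iff.2 fun p hp => ?_
      rw [Polynomial.eval_pow]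
      exact pow_ne_zero _ (hpe p hp)
    rw [hHT, ct_mul P (by rw [Polynomial.eval_C]; exact hu) hprod, ct_C P hu, zero_add,
      ct_prod P T _ fun p hp => by
        rw [Polynomial.eval_pow]
        exact pow_ne_zero _ (hpe p hp)]
    exact Finset.sum_congr rfl fun p hp => ct_pow P (hpe p hp) _
  rw [h2]
  symm
  refine Finset.sum_subset hT1T fun p hp hp1 => ?_
  obtain ⟨c, hc⟩ := hT2 p hp hp1
  have hpX := eq_X_sub_C (hT p hp).1 (hT p hp).2 hc
  have hij : y ≠ c := by
    intro h
    apply hpe p hp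
    rw [h]; exact hc
  rw [hpX, ct_X_sub_C P hij, mul_zero]

/-- Job SC-AN. -/
theorem s_an : Pool.Agent.Y190.SC.S_AN := by
  classical
  intro r0 hr0 n q a ha M c hnum H hH hdeg hHa hS
  have hchK : CharZero (MK (exD r0 hr0)) :=
    charZero_of_injective_algebraMap (algebraMap ℂ (MK (exD r0 hr0))).injective
  have hM0 : 0 < M := by
    rcases Nat.eq_zero_or_pos M with h | h
    · rw [h] at hnum
      simp at hnum
    · exact h
  obtain ⟨q', rfl⟩ : ∃ q', q = q' + 1 := by
    refine ⟨q - 1, ?_⟩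
    have h0 : 0 < q * M := lt_of_le_of_lt (Nat.zero_le _) hnum
    have : 0 < q := by
      rcases Nat.eq_zero_or_pos q with h | h
      · rw [h, Nat.zero_mul] at h0
        exact absurd h0 (lt_irrefl 0)
      · exact h
    omega
  obtain ⟨T, T1, e, u, hu, hT, hHT, hTe, hT1T, hT1c, hT2, -, -⟩ :=
    rad_data (r := n) a ha H hH hdeg (fun p hp hdvd => by
      have h1 := Polynomial.natDegree_le_of_dvd hdvd hH
      rw [Polynomial.natDegree_pow] at h1
      have h2 := hp.natDegree_pos
      nlinarith)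
  -- degrees
  have hsumdeg : ∑ p ∈ T1, e p * p.natDegree ≤ n := by
    have h1 : H.natDegree = ∑ p ∈ T, e p * p.natDegree := by
      rw [hHT, Polynomial.natDegree_C_mul hu, Polynomial.natDegree_prod _ _
        (fun p hp => pow_ne_zero _ (hT p hp).1.ne_zero)]
      exact Finset.sum_congr rfl fun p _ => Polynomial.natDegree_pow _ _
    calc _ ≤ ∑ p ∈ T, e p * p.natDegree := Finset.sum_le_sum_of_subset hT1T
      _ = H.natDegree := h1.symm
      _ ≤ n := hdeg
  have hdeg1 : ∀ p ∈ T1, p.natDegree ≤ n := fun p hp => by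
    have h1 : e p * p.natDegree ≤ ∑ p ∈ T1, e p * p.natDegree :=
      Finset.single_le_sum (f := fun p => e p * p.natDegree) (fun _ _ => Nat.zero_le _) hp
    have h2 := (hTe p (hT1T hp)).1
    have h3 : 1 * p.natDegree ≤ e p * p.natDegree := Nat.mul_le_mul_right _ h2
    omega
  -- the family
  have hprep := fun t : {p // p ∈ T1} => prep (R := t.1) (d := t.1.natDegree) rfl
    (hT t.1 (hT1T t.2)).1.squarefree (hT1c t.1 t.2) a
  choose r1 G h01 hGan hGnz hGne hPne hGord hGfin using hprep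
  set r2 : ℝ := r0 + ∑ t : {p // p ∈ T1}, |r1 t| with hr2
  have hr2t : ∀ t, r1 t ≤ r2 := by
    intro t
    have h1 : |r1 t| ≤ ∑ t : {p // p ∈ T1}, |r1 t| :=
      Finset.single_le_sum (f := fun t => |r1 t|) (fun _ _ => abs_nonneg _) (Finset.mem_univ t)
    have := le_abs_self (r1 t)
    linarith
  have hr02 : r0 ≤ r2 := by
    have : 0 ≤ ∑ t : {p // p ∈ T1}, |r1 t| := Finset.sum_nonneg fun _ _ => abs_nonneg _
    linarith
  have hr20 : 0 < r2 := lt_of_lt_of_le hr0 hr02
  have hnum1 : ∀ t : {p // p ∈ T1}, (∑ t : {p // p ∈ T1}, e t.1 * t.1.natDegree) * (∑ i, c i) +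
      2 * t.1.natDegree * M < (q' + 1) * M := by
    intro t
    have h1 : (∑ t : {p // p ∈ T1}, e t.1 * t.1.natDegree) = ∑ p ∈ T1, e p * p.natDegree :=
      Finset.sum_coe_sort T1 (fun p => e p * p.natDegree)
    rw [h1]
    have h2 := Nat.mul_le_mul_right (∑ i, c i) hsumdeg
    have h3 := Nat.mul_le_mul_right M (Nat.mul_le_mul_left 2 (hdeg1 t.1 t.2))
    omega
  have hcore := core3 (ι := {p // p ∈ T1}) (u := fun _ => 1) (v := a)
    (fun i j hij h => hij (ha (by simpa using h.symm))) hr20 M c (fun t => t.1.natDegree)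
    (fun t => e t.1) (fun t => (hTe t.1 (hT1T t.2)).1) hnum1 G
    (fun t z hz => hGan t z (Ext_mono (hr2t t) hz))
    (fun t z hz => hGnz t z (Ext_mono (hr2t t) hz))
    (fun t i => ne_on_smaller (hr0.trans (h01 t)) (hr2t t)
      (fun z hz => evi_an (hGan t z hz) i) (hGne t i))
    (fun t => ne_on_smaller (hr0.trans (h01 t)) (hr2t t)
      (fun z hz => Pf_an (hGan t z hz)) (hPne t)) (fun z hz b hb => by
        have hzU : z ∈ (exD r0 hr0).U := Ext_mono hr02 hz
        have hct : ∀ i, ct (PL hzU) H (a i) = ((∑ t, e t.1 * b t i : ℕ) : ℤ) := by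
          intro i
          rw [ct_sum hu hT hHT (fun p hp => (hTe p hp).1) hT1T hT2 (PL hzU) (hHa i),
            ← Finset.sum_coe_sort T1 (fun p => (e p : ℤ) * ct (PL hzU) p (a i)), Nat.cast_sum]
          refine Finset.sum_congr rfl fun t _ => ?_
          rw [hGord t z hzU (Ext_mono (hr2t t) hz) i (b t i) (hb t i), Nat.cast_mul]
        rcases hS z hzU with h | h
        · left
          intro t i
          have h1 := h i
          rw [hct i] at h1
          have h2 : ∑ t, e t.1 * b t i = 0 := by exact_mod_cast h1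
          rw [Finset.sum_eq_zero_iff] at h2
          have h3 := h2 t (Finset.mem_univ t)
          have h4 := (hTe t.1 (hT1T t.2)).1
          rcases Nat.mul_eq_zero.1 h3 with h5 | h5
          · omega
          · exact h5
        · right
          have h1 : ∑ i, (c i : ℤ) * ct (PL hzU) H (a i) =
              ((∑ i, c i * ∑ t, e t.1 * b t i : ℕ) : ℤ) := by
            rw [Nat.cast_sum]
            refine Finset.sum_congr rfl fun i _ => ?_
            rw [hct i, Nat.cast_mul]
          rw [h1] at h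
          exact_mod_cast h)
  -- the factors
  have hfac : ∀ p ∈ T, ∃ p' : (Minf r0 hr0)[X],
      p'.map (algebraMap (Minf r0 hr0) (MK (exD r0 hr0))) = p := by
    intro p hp
    by_cases h : p ∈ T1
    · have h2 : p.natDegree ≤ q' := by
        have h3 : 2 * p.natDegree * M < (q' + 1) * M :=
          lt_of_le_of_lt (Nat.le_add_left _ _) (hnum1 ⟨p, h⟩)
        have := lt_of_mul_lt_mul_right h3 (Nat.zero_le _)
        omega
      obtain ⟨G', -, hG'⟩ := interp_mem (Minf r0 hr0) a ha (hT p hp).2 h2 (fun i => by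
        obtain ⟨κ, Q, hκ, hQ, R0, hR0⟩ := hcore ⟨p, h⟩ i
        exact hGfin ⟨p, h⟩ i κ Q R0 hκ hQ hR0) (hT1c p h _)
      exact ⟨G', hG'⟩
    · obtain ⟨c, hc⟩ := hT2 p hp h
      refine ⟨X - C (algebraMap ℂ (Minf r0 hr0) c), ?_⟩
      rw [Polynomial.map_sub, Polynomial.map_X, Polynomial.map_C,
        ← IsScalarTower.algebraMap_apply]
      exact (eq_X_sub_C (hT p hp).1 (hT p hp).2 hc).symm
  choose! p' hp' using hfac
  refine ⟨u, ∏ p ∈ T, p' p ^ e p, hu, ?_⟩
  rw [hHT, Polynomial.map_prod]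
  congr 1
  refine Finset.prod_congr rfl fun p hp => ?_
  rw [Polynomial.map_pow, hp' p hp]

end Pool.Agent.Y618.SA
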