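import Pool.Agent.Y245.SC.Stm

/-!
# Uniform local extension of the solution of the Volterra equation (helper618)
-/

set_option autoImplicit false

open Complex MeasureTheory Metric Set Filter Topology ComplexConjugate
open Pool.Agent.Y245.SC

namespace Pool.Agent.Y618.SC

theorem exp_mem {ω : ℂ} {r : ℝ} (h : ω.re < r) : exp ω ∈ ball (0 : ℂ) (Real.exp r) := by
  rw [mem_ball_zero_iff, Complex.norm_exp]
  exact Real.exp_lt_exp.mpr h

theorem fc_diff {φ : ℂ → ℂ} {ℓ : ℝ} (hφ : DifferentiableOn ℂ φ (ball 0 (Real.exp ℓ)))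
    {ω : ℂ} (h : -ℓ < ω.re) : DifferentiableAt ℂ (Fc φ) ω := by
  have h1 : DifferentiableAt ℂ (fun z => φ (exp (-z))) (conj ω) := by
    have h2 : exp (-(conj ω)) ∈ ball (0 : ℂ) (Real.exp ℓ) := by
      refine exp_mem ?_
      rw [neg_re, conj_re]
      linarith
    have h3 : DifferentiableAt ℂ φ (exp (-(conj ω))) :=
      hφ.differentiableAt (isOpen_ball.mem_nhds h2)
    exact DifferentiableAt.comp (conj ω) h3 (by fun_prop)
  have h4 := h1.conj_conj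
  rw [Complex.conj_conj] at h4
  exact h4

theorem ker_diff (hK : S_KAP) {φ : ℂ → ℂ} {a ℓ : ℝ} (ha : 0 ≤ a)
    (hφ : DifferentiableOn ℂ φ (ball 0 (Real.exp ℓ))) {p : ℂ × ℂ × ℂ} (h1 : p.1.re < ℓ)
    (h2 : p.2.1.re < ℓ) :
    DifferentiableAt ℂ (fun p : ℂ × ℂ × ℂ => ker a φ p.1 p.2.1 p.2.2) p := by
  have hk := (hK a ha).1
  have e1 := isOpen_ball.mem_nhds (exp_mem h1)
  have e2 := isOpen_ball.mem_nhds (exp_mem h2)
  have d1 : DifferentiableAt ℂ (fun p : ℂ × ℂ × ℂ => φ (exp p.1)) p :=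
    DifferentiableAt.comp p (hφ.differentiableAt e1) (by fun_prop)
  have d2 : DifferentiableAt ℂ (fun p : ℂ × ℂ × ℂ => φ (exp p.2.1)) p :=
    DifferentiableAt.comp p (hφ.differentiableAt e2) (by fun_prop)
  have d3 : DifferentiableAt ℂ (fun p : ℂ × ℂ × ℂ => deriv φ (exp p.1)) p :=
    DifferentiableAt.comp p ((hφ.deriv isOpen_ball).differentiableAt e1) (by fun_prop)
  have d5 : DifferentiableAt ℂ (fun p : ℂ × ℂ × ℂ => p.2.2) p := by fun_prop
  have d4 : DifferentiableAt ℂ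
      (fun p : ℂ × ℂ × ℂ => kap a (p.2.2 * (φ (exp p.1) - φ (exp p.2.1)))) p :=
    DifferentiableAt.comp p (hk _) (d5.mul (d1.sub d2))
  have d6 : DifferentiableAt ℂ (fun p : ℂ × ℂ × ℂ => exp p.1) p := by fun_prop
  exact ((d5.pow 2).mul d4).mul (d3.mul d6)

theorem ker_bound (hK : S_KAP) {φ : ℂ → ℂ} {a : ℝ} (ha : 0 ≤ a) {Φ Φ' X : ℝ}
    (hΦ : ∀ w ∈ closedBall (0 : ℂ) 1, ‖φ w‖ ≤ Φ) (hΦ' : ∀ w ∈ closedBall (0 : ℂ) 1, ‖deriv φ w‖ ≤ Φ')
    {ω ω0 ξ : ℂ} (h1 : ω.re ≤ 0) (h2 : ω0.re ≤ 0) (hξ : ‖ξ‖ ≤ X) :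
    ‖ker a φ ω ω0 ξ‖ ≤ X ^ 2 * (a * Real.exp (a * (X * (2 * Φ)))) * Φ' := by
  have hX : 0 ≤ X := (norm_nonneg _).trans hξ
  have e1 : exp ω ∈ closedBall (0 : ℂ) 1 := by
    rw [mem_closedBall_zero_iff, Complex.norm_exp]
    exact Real.exp_le_one_iff.mpr h1
  have e2 : exp ω0 ∈ closedBall (0 : ℂ) 1 := by
    rw [mem_closedBall_zero_iff, Complex.norm_exp]
    exact Real.exp_le_one_iff.mpr h2
  have hΦ0 : 0 ≤ Φ := (norm_nonneg _).trans (hΦ _ e1)
  have hΦ0' : 0 ≤ Φ' := (norm_nonneg _).trans (hΦ' _ e1)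
  have k1 : ‖ξ * (φ (exp ω) - φ (exp ω0))‖ ≤ X * (2 * Φ) := by
    rw [norm_mul]
    refine mul_le_mul hξ ?_ (norm_nonneg _) hX
    refine (norm_sub_le _ _).trans ?_
    have := hΦ _ e1
    have := hΦ _ e2
    linarith
  have k2 : ‖kap a (ξ * (φ (exp ω) - φ (exp ω0)))‖ ≤ a * Real.exp (a * (X * (2 * Φ))) :=
    ((hK a ha).2.1 _).trans (by gcongr)
  have k3 : ‖deriv φ (exp ω) * exp ω‖ ≤ Φ' := by
    rw [norm_mul]
    have h5 := hΦ' _ e1
    have h6 := mem_closedBall_zero_iff.mp e1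
    calc ‖deriv φ (exp ω)‖ * ‖exp ω‖ ≤ Φ' * 1 := mul_le_mul h5 h6 (norm_nonneg _) hΦ0'
      _ = Φ' := mul_one _
  unfold Pool.Agent.Y245.SC.ker
  rw [norm_mul, norm_mul, norm_pow]
  gcongr

theorem strip_open (ℓ : ℝ) : IsOpen (Strip ℓ) :=
  (isOpen_lt continuous_const Complex.continuous_re).inter
    (isOpen_lt Complex.continuous_re continuous_const)

theorem strip_convex (ℓ : ℝ) : Convex ℝ (Strip ℓ) :=
  (convex_halfSpace_re_gt (-ℓ)).inter (convex_halfSpace_re_lt ℓ)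

theorem loc : S_LOC := by
  intro hK hSeg hPar hPic φ G a ℓ M ha hℓ hφ hG hV hM
  have ha0 : 0 ≤ a := ha.le
  -- compactness bounds
  have hsub : closedBall (0 : ℂ) 1 ⊆ ball 0 (Real.exp ℓ) := by
    refine closedBall_subset_ball ?_
    exact Real.one_lt_exp_iff.mpr hℓ
  obtain ⟨Φ, hΦ⟩ := (isCompact_closedBall (0 : ℂ) 1).exists_bound_of_continuousOn
    (hφ.continuousOn.mono hsub)
  obtain ⟨Φ', hΦ'⟩ := (isCompact_closedBall (0 : ℂ) 1).exists_bound_of_continuousOn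
    ((hφ.deriv isOpen_ball).continuousOn.mono hsub)
  have hsub2 : closedBall (0 : ℂ) (Real.exp (-(ℓ / 4))) ⊆ ball 0 1 := by
    refine closedBall_subset_ball ?_
    have h0 : Real.exp (-(ℓ / 4)) < Real.exp 0 := Real.exp_lt_exp.mpr (by linarith)
    rwa [Real.exp_zero] at h0
  obtain ⟨B, hB⟩ := (isCompact_closedBall (0 : ℂ) (Real.exp (-(ℓ / 4)))).exists_bound_of_continuousOn
    (hG.continuousOn.mono hsub2)
  have hΦ0 : 0 ≤ Φ := (norm_nonneg _).trans (hΦ 0 (by simp))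
  have hΦ0' : 0 ≤ Φ' := (norm_nonneg _).trans (hΦ' 0 (by simp))
  have hB0 : 0 ≤ B := (norm_nonneg _).trans (hB 0 (by simp; positivity))
  have hM0 : 0 ≤ M := (norm_nonneg _).trans (hM 0 (by simpa using hℓ) (by simp))
  set KB : ℝ → ℝ := fun X => X ^ 2 * (a * Real.exp (a * (X * (2 * Φ)))) * Φ' with hKB
  have hKB0 : ∀ X, 0 ≤ KB X := by
    intro X
    simp only [hKB]
    positivity
  have hπ := Real.pi_pos
  set M1 : ℝ := M + 1 + B + KB M * (ℓ + Real.pi) with hM1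
  have hM1pos : 0 < M1 := by
    have := mul_nonneg (hKB0 M) (by linarith : (0 : ℝ) ≤ ℓ + Real.pi)
    linarith
  have hMM1 : M ≤ M1 := by
    have := mul_nonneg (hKB0 M) (by linarith : (0 : ℝ) ≤ ℓ + Real.pi)
    linarith
  set L : ℝ := KB (3 * M1) with hL
  have hL0 : 0 ≤ L := hKB0 _
  set ρ : ℝ := min (ℓ / 4) (M1 / (8 * (L + 1))) with hρ
  have hρ0 : 0 < ρ := lt_min (by linarith) (by positivity)
  have hρℓ : ρ ≤ ℓ / 4 := min_le_left _ _
  have hρL : ρ * L ≤ M1 / 8 := by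
    have h1 : ρ ≤ M1 / (8 * (L + 1)) := min_le_right _ _
    calc ρ * L ≤ ρ * (L + 1) := by gcongr; linarith
      _ ≤ M1 / (8 * (L + 1)) * (L + 1) := by gcongr
      _ = M1 / 8 := by field_simp
  refine ⟨ρ, 2 * M1, hρ0, ?_⟩
  intro ω1 h1 h2 h3
  have h2' : ω1.re < -(ℓ / 2) := by linarith
  -- real part in the ball
  have hre : ∀ ω ∈ ball ω1 ρ, ω.re < -(ℓ / 4) := by
    intro ω hω
    have h4 : |(ω - ω1).re| < ρ := lt_of_le_of_lt (Complex.abs_re_le_norm _) (by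
      rw [← dist_eq_norm]; exact hω)
    rw [sub_re] at h4
    have := (abs_lt.mp h4).2
    linarith
  set δ : ℝ := min ρ (ω1.re + ℓ) with hδ
  have hδ0 : 0 < δ := lt_min hρ0 (by linarith)
  have hδρ : δ ≤ ρ := min_le_left _ _
  have hreδ : ∀ ω ∈ ball ω1 δ, -ℓ < ω.re := by
    intro ω hω
    have h4 : |(ω - ω1).re| < δ := lt_of_le_of_lt (Complex.abs_re_le_norm _) (by
      rw [← dist_eq_norm]; exact hω)
    rw [sub_re] at h4
    have := (abs_lt.mp h4).1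
    have h5 : δ ≤ ω1.re + ℓ := min_le_right _ _
    linarith
  -- the path from 0 to ω1
  have hpath : ∀ t ∈ Icc (0 : ℝ) 1, -ℓ < ((0 : ℂ) + t * (ω1 - 0)).re ∧
      ((0 : ℂ) + t * (ω1 - 0)).re ≤ 0 := by
    intro t ht
    have h5 : ((0 : ℂ) + t * (ω1 - 0)).re = t * ω1.re := by simp
    rw [h5]
    constructor
    · have : t * ω1.re ≥ 1 * ω1.re := mul_le_mul_of_nonpos_right ht.2 (by linarith)
      linarith
    · exact mul_nonpos_of_nonneg_of_nonpos ht.1 (by linarith)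
  have hω1 : ‖ω1‖ ≤ ℓ + Real.pi := by
    refine (Complex.norm_le_abs_re_add_abs_im _).trans ?_
    have : |ω1.re| ≤ ℓ := by
      rw [abs_le]; constructor <;> linarith
    linarith
  set A : ℂ → ℂ := fun ω0 => G (exp ω0) + seg (fun ω => ker a φ ω ω0 (Fc φ ω)) 0 ω1 with hA
  have hAd : DifferentiableOn ℂ A (ball ω1 ρ) := by
    refine DifferentiableOn.add ?_ ?_
    · intro ω0 hω0
      have h6 : exp ω0 ∈ ball (0 : ℂ) 1 := by
        have := exp_mem (r := 0) (ω := ω0) (by have := hre _ hω0; linarith)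
        rwa [Real.exp_zero] at this
      exact (DifferentiableAt.comp ω0 (hG.differentiableAt (isOpen_ball.mem_nhds h6))
        (by fun_prop)).differentiableWithinAt
    · refine hPar (ball ω1 ρ) (fun ω0 t => ker a φ ((0 : ℂ) + t * (ω1 - 0)) ω0
        (Fc φ ((0 : ℂ) + t * (ω1 - 0))) * (ω1 - 0)) isOpen_ball ?_ ?_
      · rintro ⟨ω0, t⟩ ⟨hω0, ht⟩
        obtain ⟨p1, p2⟩ := hpath t ht
        have h7 : ω0.re < ℓ := by have := hre _ hω0; linarith
        have h8 : ContinuousAt (fun p : ℂ × ℂ × ℂ => ker a φ p.1 p.2.1 p.2.2)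
            ((0 : ℂ) + t * (ω1 - 0), ω0, Fc φ ((0 : ℂ) + t * (ω1 - 0))) :=
          (ker_diff hK ha0 hφ (by simpa using lt_of_le_of_lt p2 hℓ) h7).continuousAt
        have h9 : ContinuousAt (fun p : ℂ × ℝ => ((0 : ℂ) + p.2 * (ω1 - 0))) (ω0, t) := by
          fun_prop
        have h10 : ContinuousAt (fun p : ℂ × ℝ => Fc φ ((0 : ℂ) + p.2 * (ω1 - 0))) (ω0, t) :=
          ContinuousAt.comp (f := fun p : ℂ × ℝ => ((0 : ℂ) + p.2 * (ω1 - 0)))
            (x := (ω0, t)) (fc_diff hφ p1).continuousAt h9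
        have h11 : ContinuousAt (fun p : ℂ × ℝ => (((0 : ℂ) + p.2 * (ω1 - 0)), p.1,
            Fc φ ((0 : ℂ) + p.2 * (ω1 - 0)))) (ω0, t) :=
          h9.prodMk (continuousAt_fst.prodMk h10)
        have h12 := ContinuousAt.comp (f := fun p : ℂ × ℝ => (((0 : ℂ) + p.2 * (ω1 - 0)), p.1,
            Fc φ ((0 : ℂ) + p.2 * (ω1 - 0)))) (x := (ω0, t)) h8 h11
        exact (h12.mul continuousAt_const).continuousWithinAt
      · intro t ht ω0 hω0
        obtain ⟨p1, p2⟩ := hpath t ht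
        have h7 : ω0.re < ℓ := by have := hre _ hω0; linarith
        have h8 : DifferentiableAt ℂ (fun p : ℂ × ℂ × ℂ => ker a φ p.1 p.2.1 p.2.2)
            ((0 : ℂ) + t * (ω1 - 0), ω0, Fc φ ((0 : ℂ) + t * (ω1 - 0))) :=
          ker_diff hK ha0 hφ (by simpa using lt_of_le_of_lt p2 hℓ) h7
        have h9 := DifferentiableAt.comp (f := fun z : ℂ => (((0 : ℂ) + t * (ω1 - 0)), z,
            Fc φ ((0 : ℂ) + t * (ω1 - 0)))) ω0 h8 (by fun_prop)
        exact (h9.mul (differentiableAt_const _)).differentiableWithinAt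
  have hAb : ∀ ω ∈ ball ω1 ρ, ‖A ω‖ ≤ M1 := by
    intro ω0 hω0
    have h6 : exp ω0 ∈ closedBall (0 : ℂ) (Real.exp (-(ℓ / 4))) := by
      rw [mem_closedBall_zero_iff, Complex.norm_exp]
      exact Real.exp_le_exp.mpr (hre _ hω0).le
    have h7 := hB _ h6
    have h8 : ‖seg (fun ω => ker a φ ω ω0 (Fc φ ω)) 0 ω1‖ ≤ KB M * (ℓ + Real.pi) * |1 - 0| := by
      refine intervalIntegral.norm_integral_le_of_norm_le_const ?_
      intro t ht
      rw [uIoc_of_le zero_le_one] at ht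
      obtain ⟨p1, p2⟩ := hpath t ⟨ht.1.le, ht.2⟩
      rw [norm_mul, sub_zero]
      rw [sub_zero] at p1 p2
      refine mul_le_mul ?_ hω1 (norm_nonneg _) (hKB0 M)
      exact ker_bound hK ha0 hΦ hΦ' p2 (by have := hre _ hω0; linarith) (hM _ p1 p2)
    rw [sub_zero, abs_one, mul_one] at h8
    refine (norm_add_le _ _).trans ?_
    linarith
  have hκd : DifferentiableOn ℂ (fun p : ℂ × ℂ × ℂ => ker a φ p.1 p.2.1 p.2.2)
      (ball ω1 ρ ×ˢ ball ω1 ρ ×ˢ ball 0 (3 * M1)) := by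
    rintro ⟨x, y, z⟩ ⟨hx, hy, hz⟩
    exact (ker_diff hK ha0 hφ (by have := hre _ hx; dsimp only; linarith)
      (by have := hre _ hy; dsimp only; linarith)).differentiableWithinAt
  have hκb : ∀ p ∈ ball ω1 ρ ×ˢ ball ω1 ρ ×ˢ ball (0 : ℂ) (3 * M1),
      ‖ker a φ p.1 p.2.1 p.2.2‖ ≤ L := by
    rintro ⟨x, y, z⟩ ⟨hx, hy, hz⟩
    exact ker_bound hK ha0 hΦ hΦ' (by have := hre _ hx; dsimp only; linarith)
      (by have := hre _ hy; dsimp only; linarith) (mem_ball_zero_iff.mp hz).le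
  have hFd : DifferentiableOn ℂ (Fc φ) (ball ω1 δ) := fun ω hω =>
    (fc_diff hφ (hreδ ω hω)).differentiableWithinAt
  have hFb : ∀ ω ∈ ball ω1 δ, ‖Fc φ ω‖ ≤ M1 := by
    intro ω hω
    have h4 := hre ω (ball_subset_ball hδρ hω)
    exact (hM ω (hreδ ω hω) (by linarith)).trans hMM1
  have heq : ∀ ω0 ∈ ball ω1 δ, Fc φ ω0 = A ω0 +
      seg (fun ω => ker a φ ω ω0 (Fc φ ω)) ω1 ω0 := by
    intro ω0 hω0
    have h4 := hre ω0 (ball_subset_ball hδρ hω0)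
    have h5 := hreδ ω0 hω0
    rw [hV ω0 h5 (by linarith)]
    have h6 := (hSeg (Strip ℓ) (fun ω => ker a φ ω ω0 (Fc φ ω)) (strip_open ℓ) (strip_convex ℓ)
      (by
        intro ω hω
        have h7 : DifferentiableAt ℂ (fun p : ℂ × ℂ × ℂ => ker a φ p.1 p.2.1 p.2.2)
            (ω, ω0, Fc φ ω) :=
          ker_diff hK ha0 hφ hω.2 (by dsimp only; linarith)
        have h8 := DifferentiableAt.comp (f := fun z : ℂ => (z, ω0, Fc φ z)) ω h7
          (differentiableAt_id.prodMk ((differentiableAt_const _).prodMk (fc_diff hφ hω.1)))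
        exact h8.differentiableWithinAt)).1 0 ⟨by simpa using hℓ, by simpa using hℓ⟩ ω1
        ⟨h1, by linarith⟩ ω0 ⟨h5, by linarith⟩
    rw [← h6]
    simp only [hA]
    ring
  obtain ⟨F', hF1, hF2, hF3⟩ := hPic hPar ω1 ρ δ M1 L A
    (fun p : ℂ × ℂ × ℂ => ker a φ p.1 p.2.1 p.2.2) (Fc φ) hδ0 hδρ hM1pos hL0 hρL hAd hAb hκd hκb
    hFd hFb heq
  exact ⟨F', hF1, hF2, hF3.eventuallyEq_of_mem (ball_mem_nhds ω1 hδ0)⟩

end Pool.Agent.Y618.SC
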