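import Pool.Agent.Y245.SC.Stm3

/-!
# A simple pole: the residue is quantised (helper618; job SC-SIMB of helper245)
-/

set_option autoImplicit false

open Complex MeasureTheory Metric Set Filter Topology ComplexConjugate
open Pool.Agent.Y245.SC
open Pool.Agent.Y245.SG (Bn)

namespace Pool.Agent.Y618.SC

theorem le_zero_of_small {A C r1 : ℝ} (hr1 : 0 < r1) (h : ∀ r, 0 < r → r < r1 → A ≤ C * r) :
    A ≤ 0 := by
  by_contra hA
  push Not at hA
  have hC : 0 < 2 * (|C| + 1) := by positivity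
  set r := min (r1 / 2) (A / (2 * (|C| + 1))) with hr
  have hr0 : 0 < r := lt_min (by linarith) (by positivity)
  have h1 := h r hr0 (lt_of_le_of_lt (min_le_left _ _) (by linarith))
  have h2 : r ≤ A / (2 * (|C| + 1)) := min_le_right _ _
  have h3 : C * r ≤ (|C| + 1) * (A / (2 * (|C| + 1))) := by
    calc C * r ≤ |C| * r := mul_le_mul_of_nonneg_right (le_abs_self C) hr0.le
      _ ≤ (|C| + 1) * r := mul_le_mul_of_nonneg_right (by linarith) hr0.le
      _ ≤ _ := mul_le_mul_of_nonneg_left h2 (by positivity)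
  have h4 : (|C| + 1) * (A / (2 * (|C| + 1))) = A / 2 := by field_simp
  linarith

theorem simb : S_SIMB := by
  intro hA a ρ c x X g ct ha hρ hx hx' hxn hg hct hX hint
  have hρ2 : 0 < ρ / 2 := by linarith
  have hcm : c ∈ ball c ρ := mem_ball_self hρ
  set y : ℂ → ℂ := fun ω => x ω - x c with hy
  have hyd : DifferentiableOn ℂ y (ball c ρ) := hx.sub_const _
  have hyc : y c = 0 := sub_self _
  have hyn : ∀ ω ∈ ball c ρ, ω ≠ c → y ω ≠ 0 := fun ω h1 h2 => sub_ne_zero.2 (hxn ω h1 h2)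
  have hdy : ∀ ω, deriv y ω = deriv x ω := fun ω => deriv_sub_const (x c)
  have hdyd : DifferentiableOn ℂ (deriv y) (ball c ρ) := hyd.deriv isOpen_ball
  set v : ℂ → ℂ := dslope y c with hv
  have hvd : DifferentiableOn ℂ v (ball c ρ) :=
    (differentiableOn_dslope (isOpen_ball.mem_nhds hcm)).2 hyd
  have hyv : ∀ ω, y ω = (ω - c) * v ω := by
    intro ω
    have h := sub_smul_dslope y c ω
    rw [hyc, sub_zero, smul_eq_mul] at h
    exact h.symm
  have hvc : v c ≠ 0 := by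
    rw [hv, dslope_same, hdy]
    exact hx'
  have hvn : ∀ ω ∈ ball c ρ, v ω ≠ 0 := by
    intro ω hω h0
    by_cases h : ω = c
    · rw [h] at h0
      exact hvc h0
    · apply hyn ω hω h
      rw [hyv, h0, mul_zero]
  set G : ℂ → ℂ := fun ω => g ω - g c with hG
  have hGd : DifferentiableOn ℂ G (ball c ρ) := hg.sub_const _
  have hGc : G c = 0 := sub_self _
  have hGv : ∀ ω, G ω = (ω - c) * dslope G c ω := by
    intro ω
    have h := sub_smul_dslope G c ω
    rw [hGc, sub_zero, smul_eq_mul] at h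
    exact h.symm
  have hGsd : DifferentiableOn ℂ (dslope G c) (ball c ρ) :=
    (differentiableOn_dslope (isOpen_ball.mem_nhds hcm)).2 hGd
  -- bounds
  have hsub : closedBall c (ρ / 2) ⊆ ball c ρ := closedBall_subset_ball (by linarith)
  obtain ⟨K1, hK1⟩ := (isCompact_closedBall c (ρ / 2)).exists_bound_of_continuousOn
    (hvd.continuousOn.mono hsub)
  obtain ⟨K2, hK2⟩ := (isCompact_closedBall c (ρ / 2)).exists_bound_of_continuousOn
    ((hvd.continuousOn.mono hsub).inv₀ fun ω hω => hvn ω (hsub hω))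
  obtain ⟨K3, hK3⟩ := (isCompact_closedBall c (ρ / 2)).exists_bound_of_continuousOn
    (hdyd.continuousOn.mono hsub)
  obtain ⟨K4, hK4⟩ := (isCompact_closedBall c (ρ / 2)).exists_bound_of_continuousOn
    (hGsd.continuousOn.mono hsub)
  have hcc : c ∈ closedBall c (ρ / 2) := mem_closedBall_self hρ2.le
  have n1 : 0 ≤ K1 := (norm_nonneg _).trans (hK1 c hcc)
  have n2 : 0 ≤ K2 := (norm_nonneg _).trans (hK2 c hcc)
  have n3 : 0 ≤ K3 := (norm_nonneg _).trans (hK3 c hcc)
  have n4 : 0 ≤ K4 := (norm_nonneg _).trans (hK4 c hcc)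
  have hsph : ∀ r, 0 < r → r ≤ ρ / 2 → ∀ ω ∈ sphere c r,
      ω ∈ closedBall c (ρ / 2) ∧ ω ∈ ball c ρ ∧ ω ≠ c ∧ ‖ω - c‖ = r := by
    intro r hr hr2 ω hω
    have h1 : ‖ω - c‖ = r := mem_sphere_iff_norm.1 hω
    have h2 : ω ∈ closedBall c (ρ / 2) := by
      rw [mem_closedBall_iff_norm, h1]
      exact hr2
    refine ⟨h2, hsub h2, ?_, h1⟩
    rintro rfl
    rw [sub_self, norm_zero] at h1
    linarith
  -- the exponential factor
  set γ : ℝ → ℂ := fun r => -((a : ℂ) * r) * ct with hγ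
  set E : ℝ → ℂ → ℂ := fun r ω => exp ((r : ℂ)⁻¹ * y ω + γ r / y ω) with hE
  set KE : ℝ := Real.exp (K1 + a * ‖ct‖ * K2) with hKE
  have hKE0 : 0 ≤ KE := (Real.exp_pos _).le
  have hEb : ∀ r, 0 < r → r ≤ ρ / 2 → ∀ ω ∈ sphere c r, ‖E r ω‖ ≤ KE := by
    intro r hr hr2 ω hω
    obtain ⟨h1, h2, h3, h4⟩ := hsph r hr hr2 ω hω
    refine (Complex.norm_exp_le_exp_norm _).trans (Real.exp_le_exp.mpr ?_)
    refine (norm_add_le _ _).trans (add_le_add ?_ ?_)
    · rw [norm_mul, norm_inv, Complex.norm_real, Real.norm_of_nonneg hr.le, hyv, norm_mul, h4,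
        ← mul_assoc, inv_mul_cancel₀ hr.ne', one_mul]
      exact hK1 ω h1
    · have h5 := hK2 ω h1
      rw [Pi.inv_apply, norm_inv] at h5
      rw [norm_div, hyv, norm_mul (ω - c), h4]
      simp only [hγ, norm_mul, norm_neg, Complex.norm_real, Real.norm_of_nonneg hr.le,
        Real.norm_of_nonneg ha.le]
      have h6 : 0 < ‖v ω‖ := norm_pos_iff.2 (hvn ω h2)
      have h7 : a * r * ‖ct‖ / (r * ‖v ω‖) = a * ‖ct‖ * ‖v ω‖⁻¹ := by field_simp
      rw [h7]
      exact mul_le_mul_of_nonneg_left h5 (by positivity)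
  have hcy : ∀ r, 0 < r → r ≤ ρ / 2 → ContinuousOn y (sphere c r) := fun r hr hr2 =>
    hyd.continuousOn.mono fun ω hω => (hsph r hr hr2 ω hω).2.1
  have hcG : ∀ r, 0 < r → r ≤ ρ / 2 → ContinuousOn G (sphere c r) := fun r hr hr2 =>
    hGd.continuousOn.mono fun ω hω => (hsph r hr hr2 ω hω).2.1
  have hcd : ∀ r, 0 < r → r ≤ ρ / 2 → ContinuousOn (deriv y) (sphere c r) := fun r hr hr2 =>
    hdyd.continuousOn.mono fun ω hω => (hsph r hr hr2 ω hω).2.1
  have hcE : ∀ r, 0 < r → r ≤ ρ / 2 → ContinuousOn (E r) (sphere c r) := by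
    intro r hr hr2
    refine ContinuousOn.cexp (((hcy r hr hr2).const_smul (r : ℂ)⁻¹).add
      (continuousOn_const.div (hcy r hr hr2) fun ω hω => ?_))
    exact hyn ω (hsph r hr hr2 ω hω).2.1 (hsph r hr hr2 ω hω).2.2.1
  have hci : ∀ r, 0 < r → r ≤ ρ / 2 → ∀ f : ℂ → ℂ, ContinuousOn f (sphere c r) →
      CircleIntegrable (fun ω => E r ω * f ω * deriv y ω) c r := fun r hr hr2 f hf =>
    (((hcE r hr hr2).mul hf).mul (hcd r hr hr2)).circleIntegrable hr.le
  have hci' : ∀ r, 0 < r → r ≤ ρ / 2 → ∀ (k : ℂ) (f : ℂ → ℂ), ContinuousOn f (sphere c r) →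
      CircleIntegrable (fun ω => k * (E r ω * f ω * deriv y ω)) c r := fun r hr hr2 k f hf =>
    ((((hcE r hr hr2).mul hf).mul (hcd r hr hr2)).const_smul k).circleIntegrable hr.le
  -- the estimate
  have hB : ∀ r, 0 < r → r ≤ ρ / 2 → ∀ (f : ℂ → ℂ) (B : ℝ), (∀ ω ∈ sphere c r, ‖f ω‖ ≤ B) →
      ‖∮ ω in C(c, r), E r ω * f ω * deriv y ω‖ ≤ 2 * Real.pi * r * (KE * B * K3) := by
    intro r hr hr2 f B hf
    refine circleIntegral.norm_integral_le_of_norm_le_const hr.le fun ω hω => ?_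
    rw [norm_mul, norm_mul]
    have h1 := hEb r hr hr2 ω hω
    have h2 := hf ω hω
    have h3 := hK3 ω (hsph r hr hr2 ω hω).1
    have h4 : 0 ≤ B := (norm_nonneg _).trans h2
    exact mul_le_mul (mul_le_mul h1 h2 (norm_nonneg _) hKE0) h3 (norm_nonneg _) (by positivity)
  -- the residues
  have hI : ∀ r, 0 < r → r ≤ ρ / 2 → ∀ n : ℕ, ∮ ω in C(c, r), E r ω * y ω ^ n * deriv y ω =
      2 * Real.pi * I * γ r ^ (n + 1) * Bn (n + 1) (a * ct) := by
    intro r hr hr2 n
    have h1 := hA r ρ c y (r : ℂ)⁻¹ (γ r) n hr (by linarith) hyd hyc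
      (by rw [hdy]; exact hx') (fun ω hω => hyn ω (hsub (closedBall_subset_closedBall hr2 hω)))
    have h2 : -((r : ℂ)⁻¹ * γ r) = a * ct := by
      have : (r : ℂ) ≠ 0 := ofReal_ne_zero.2 hr.ne'
      simp only [hγ]
      field_simp
    rw [h2] at h1
    exact h1
  have hZ : ∀ r, 0 < r → r ≤ ρ / 2 →
      ∮ ω in C(c, r), E r ω * exp (-((a : ℂ) * r) * G ω) * deriv y ω = 0 := by
    intro r hr hr2
    have hr0 : (r : ℂ) ≠ 0 := ofReal_ne_zero.2 hr.ne'
    have h1 := hint (r : ℂ)⁻¹ (-((a : ℂ) * r)) (by field_simp)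
    set F : ℂ → ℂ := fun ω => exp ((r : ℂ)⁻¹ * x c + -((a : ℂ) * r) * g c) *
      (E r ω * exp (-((a : ℂ) * r) * G ω) * deriv y ω) with hF
    have h2 : ∮ ω in C(c, ρ / 2), exp ((r : ℂ)⁻¹ * x ω + -((a : ℂ) * r) * X ω) * deriv x ω =
        ∮ ω in C(c, ρ / 2), F ω := by
      refine circleIntegral.integral_congr hρ2.le fun ω hω => ?_
      obtain ⟨h3, h4, h5, h6⟩ := hsph (ρ / 2) hρ2 le_rfl ω hω
      simp only [hF, hE, hγ]
      rw [hX ω h4 h5, hdy, ← mul_assoc, ← mul_assoc, ← Complex.exp_add, ← Complex.exp_add]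
      congr 2
      simp only [hG, hy]
      ring
    have hFd : DifferentiableOn ℂ F (ball c ρ \ {c}) := by
      have hs : ball c ρ \ {c} ⊆ ball c ρ := sdiff_subset
      refine DifferentiableOn.const_mul (DifferentiableOn.mul (DifferentiableOn.mul ?_ ?_) ?_) _
      · refine DifferentiableOn.cexp (((hyd.mono hs).const_mul _).add
          ((differentiableOn_const _).div (hyd.mono hs) fun ω hω => ?_))
        exact hyn ω hω.1 hω.2
      · exact DifferentiableOn.cexp ((hGd.mono hs).const_mul _)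
      · exact hdyd.mono hs
    have hop : IsOpen (ball c ρ \ {c}) := isOpen_ball.sdiff isClosed_singleton
    have h3 : ∮ ω in C(c, ρ / 2), F ω = ∮ ω in C(c, r), F ω := by
      refine circleIntegral_eq_of_differentiable_on_annulus_off_countable hr hr2
        Set.countable_empty ?_ ?_
      · refine hFd.continuousOn.mono ?_
        rintro ω ⟨h4, h5⟩
        refine ⟨hsub h4, ?_⟩
        rintro rfl
        exact h5 (mem_ball_self hr)
      · rintro ω ⟨⟨h4, h5⟩, -⟩
        refine hFd.differentiableAt (hop.mem_nhds ⟨hsub (ball_subset_closedBall h4), ?_⟩)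
        rintro rfl
        exact h5 (mem_closedBall_self hr.le)
    rw [h2, h3, hF, circleIntegral.integral_const_mul] at h1
    exact (mul_eq_zero.1 h1).resolve_left (Complex.exp_ne_zero _)
  -- the radius
  have hπ := Real.pi_pos
  have hγn : ∀ r, 0 < r → ‖γ r‖ = a * r * ‖ct‖ := by
    intro r hr
    simp only [hγ, norm_mul, norm_neg, Complex.norm_real, Real.norm_of_nonneg hr.le,
        Real.norm_of_nonneg ha.le]
  have hctp : 0 < ‖ct‖ := norm_pos_iff.2 hct
  set r0 : ℝ := min (min (ρ / 2) 1) (1 / (a * K4 + 1)) with hr0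
  have hr00 : 0 < r0 := lt_min (lt_min hρ2 one_pos) (by positivity)
  have hrr : ∀ r, 0 < r → r < r0 → r ≤ ρ / 2 ∧ r ≤ 1 ∧ a * r * (r * K4) ≤ 1 := by
    intro r hr hr1
    have h1 : r ≤ ρ / 2 := hr1.le.trans ((min_le_left _ _).trans (min_le_left _ _))
    have h2 : r ≤ 1 := hr1.le.trans ((min_le_left _ _).trans (min_le_right _ _))
    have h3 : r ≤ 1 / (a * K4 + 1) := hr1.le.trans (min_le_right _ _)
    refine ⟨h1, h2, ?_⟩
    rw [le_div_iff₀ (by positivity)] at h3
    have h4 : r * (a * K4) ≤ 1 := by nlinarith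
    calc a * r * (r * K4) = (r * (a * K4)) * r := by ring
      _ ≤ 1 * 1 := mul_le_mul h4 h2 hr.le zero_le_one
      _ = 1 := one_mul _
  have hGb : ∀ r, 0 < r → r ≤ ρ / 2 → ∀ ω ∈ sphere c r, ‖G ω‖ ≤ r * K4 := by
    intro r hr hr2 ω hω
    obtain ⟨h1, h2, h3, h4⟩ := hsph r hr hr2 ω hω
    rw [hGv, norm_mul, h4]
    exact mul_le_mul_of_nonneg_left (hK4 ω h1) hr.le
  have hβG : ∀ r, 0 < r → r ≤ ρ / 2 → ∀ ω, ‖-((a : ℂ) * r) * G ω‖ = a * r * ‖G ω‖ := by
    intro r hr hr2 ω
    rw [norm_mul, norm_neg, norm_mul, Complex.norm_real, Complex.norm_real,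
      Real.norm_of_nonneg hr.le, Real.norm_of_nonneg ha.le]
  -- the first claim
  have hfirst : Bn 1 (a * ct) = 0 := by
    have hmain : 2 * Real.pi * (a * ‖ct‖) * ‖Bn 1 (a * ct)‖ ≤ 0 := by
      refine le_zero_of_small (C := 2 * Real.pi * (KE * (2 * (a * K4)) * K3)) hr00
        fun r hr hr1 => ?_
      obtain ⟨h1, h2, h3⟩ := hrr r hr hr1
      have h4 : ∮ ω in C(c, r), E r ω * (exp (-((a : ℂ) * r) * G ω) - 1) * deriv y ω =
          0 - 2 * Real.pi * I * γ r ^ (0 + 1) * Bn (0 + 1) (a * ct) := by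
        have c1 : CircleIntegrable (fun ω => E r ω * exp (-((a : ℂ) * r) * G ω) * deriv y ω) c r :=
          hci r hr h1 _ (ContinuousOn.cexp ((hcG r hr h1).const_smul (-((a : ℂ) * r))))
        have c0 : CircleIntegrable (fun ω => E r ω * y ω ^ 0 * deriv y ω) c r :=
          hci r hr h1 _ ((hcy r hr h1).pow 0)
        rw [← hZ r hr h1, ← hI r hr h1 0, ← circleIntegral.integral_sub c1 c0]
        refine circleIntegral.integral_congr hr.le fun ω _ => ?_
        simp only [pow_zero]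
        ring
      have h5 := hB r hr h1 (fun ω => exp (-((a : ℂ) * r) * G ω) - 1) (2 * (a * r * (r * K4)))
        (fun ω hω => by
          have h6 : ‖-((a : ℂ) * r) * G ω‖ ≤ a * r * (r * K4) := by
            rw [hβG r hr h1]
            exact mul_le_mul_of_nonneg_left (hGb r hr h1 ω hω) (by positivity)
          refine (Complex.norm_exp_sub_one_le (h6.trans h3)).trans ?_
          linarith)
      rw [h4, zero_sub, norm_neg, zero_add, pow_one, norm_mul, norm_mul, hγn r hr, norm_mul,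
        Complex.norm_I, mul_one, norm_mul, Complex.norm_real, Real.norm_of_nonneg hπ.le,
        Complex.norm_ofNat] at h5
      have h6 : (2 * Real.pi * (a * ‖ct‖) * ‖Bn 1 (a * ct)‖) * r ≤
          (2 * Real.pi * (KE * (2 * (a * K4)) * K3) * r) * r := by
        calc _ = 2 * Real.pi * (a * r * ‖ct‖) * ‖Bn 1 (a * ct)‖ := by ring
          _ ≤ 2 * Real.pi * r * (KE * (2 * (a * r * (r * K4))) * K3) := h5
          _ = ((2 * Real.pi * (KE * (2 * (a * K4)) * K3) * r) * r) * r := by ring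
          _ ≤ ((2 * Real.pi * (KE * (2 * (a * K4)) * K3) * r) * r) * 1 :=
            mul_le_mul_of_nonneg_left h2 (by positivity)
          _ = _ := mul_one _
      exact le_of_mul_le_mul_right h6 hr
    have h7 : 0 < 2 * Real.pi * (a * ‖ct‖) := by positivity
    have h8 : ‖Bn 1 (a * ct)‖ ≤ 0 := by
      by_contra hcon
      push Not at hcon
      have := mul_pos h7 hcon
      linarith
    exact norm_le_zero_iff.1 h8
  refine ⟨hfirst, ?_⟩
  -- the order of vanishing
  have hGan : AnalyticAt ℂ G c := hGd.analyticAt (isOpen_ball.mem_nhds hcm)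
  by_cases hzero : ∀ᶠ z in 𝓝 c, G z = 0
  · left
    have h1 : EqOn G 0 (ball c ρ) :=
      (hGd.analyticOnNhd isOpen_ball).eqOn_zero_of_preconnected_of_eventuallyEq_zero
        (convex_ball c ρ).isPreconnected hcm hzero
    intro ω hω
    exact sub_eq_zero.1 (h1 hω)
  right
  obtain ⟨n, w, hwan, hwc, hw⟩ := (hGan.exists_eventuallyEq_pow_smul_nonzero_iff).2 hzero
  have hn : 1 ≤ n := by
    rcases Nat.eq_zero_or_pos n with h | h
    · exfalso
      have h1 := hw.self_of_nhds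
      rw [h, pow_zero, one_smul, hGc] at h1
      exact hwc h1.symm
    · exact h
  refine ⟨n, hn, ?_⟩
  set uc : ℂ := w c / v c ^ n with huc
  have huc0 : uc ≠ 0 := div_ne_zero hwc (pow_ne_zero _ hvc)
  have hvan : AnalyticAt ℂ v c := hvd.analyticAt (isOpen_ball.mem_nhds hcm)
  obtain ⟨Ks, hKs⟩ := ((hwan.differentiableAt.sub
    ((hvan.differentiableAt.pow n).const_mul uc)).isBigO_sub).bound
  have hwb : ∀ᶠ z in 𝓝 c, ‖w z‖ < ‖w c‖ + 1 :=
    hwan.continuousAt.norm.tendsto.eventually_lt_const (by linarith)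
  obtain ⟨r2, hr2, hball⟩ := Metric.eventually_nhds_iff_ball.1 (hw.and (hKs.and hwb))
  set Kw : ℝ := ‖w c‖ + 1 with hKw
  have hKw0 : 0 < Kw := by positivity
  have hsc : w c - uc * v c ^ n = 0 := by
    rw [huc]
    field_simp
    ring
  have hmain : 2 * Real.pi * (a * ‖uc‖ * (a * ‖ct‖) ^ (n + 1)) * ‖Bn (n + 1) (a * ct)‖ ≤ 0 := by
    refine le_zero_of_small
      (C := 2 * Real.pi * (KE * (a * Kw) ^ 2 * K3 + a * (KE * |Ks| * K3)))
      (lt_min hr00 hr2) fun r hr hr1 => ?_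
    obtain ⟨h1, h2, h3⟩ := hrr r hr (lt_of_lt_of_le hr1 (min_le_left _ _))
    have hrr2 : r < r2 := lt_of_lt_of_le hr1 (min_le_right _ _)
    have hloc : ∀ ω ∈ sphere c r, G ω = (ω - c) ^ n * w ω ∧ ‖w ω‖ ≤ Kw ∧
        ‖w ω - uc * v ω ^ n‖ ≤ |Ks| * r := by
      intro ω hω
      have h4 : ‖ω - c‖ = r := (hsph r hr h1 ω hω).2.2.2
      obtain ⟨h5, h6, h7⟩ := hball ω (by rw [mem_ball_iff_norm, h4]; exact hrr2)
      refine ⟨h5, h7.le, ?_⟩
      simp only [Pi.sub_apply, Pi.pow_apply] at h6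
      rw [hsc, sub_zero, h4] at h6
      exact h6.trans (mul_le_mul_of_nonneg_right (le_abs_self Ks) hr.le)
    have hGb2 : ∀ ω ∈ sphere c r, ‖G ω‖ ≤ r ^ n * Kw := by
      intro ω hω
      obtain ⟨h5, h6, -⟩ := hloc ω hω
      rw [h5, norm_mul, norm_pow, (hsph r hr h1 ω hω).2.2.2]
      exact mul_le_mul_of_nonneg_left h6 (by positivity)
    have hDb : ∀ ω ∈ sphere c r, ‖G ω - uc * y ω ^ n‖ ≤ r ^ n * (|Ks| * r) := by
      intro ω hω
      obtain ⟨h5, -, h7⟩ := hloc ω hω
      have h8 : G ω - uc * y ω ^ n = (ω - c) ^ n * (w ω - uc * v ω ^ n) := by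
        rw [h5, hyv, mul_pow]
        ring
      rw [h8, norm_mul, norm_pow, (hsph r hr h1 ω hω).2.2.2]
      exact mul_le_mul_of_nonneg_left h7 (by positivity)
    set β : ℂ := -((a : ℂ) * r) with hβ
    have hβn : ‖β‖ = a * r := by
      rw [hβ, norm_neg, norm_mul, Complex.norm_real, Complex.norm_real,
        Real.norm_of_nonneg hr.le, Real.norm_of_nonneg ha.le]
    have hcex : ContinuousOn (fun ω => exp (β * G ω)) (sphere c r) :=
      ContinuousOn.cexp ((hcG r hr h1).const_smul β)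
    -- the two remainders
    have k1 := hB r hr h1 (fun ω => exp (β * G ω) - 1 - β * G ω) ((a * r * (r ^ n * Kw)) ^ 2)
      (fun ω hω => by
        have h6 : ‖β * G ω‖ ≤ a * r * (r * K4) := by
          rw [norm_mul, hβn]
          exact mul_le_mul_of_nonneg_left (hGb r hr h1 ω hω) (by positivity)
        have h7 : ‖β * G ω‖ ≤ a * r * (r ^ n * Kw) := by
          rw [norm_mul, hβn]
          exact mul_le_mul_of_nonneg_left (hGb2 ω hω) (by positivity)
        refine (Complex.norm_exp_sub_one_sub_id_le (h6.trans h3)).trans ?_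
        exact pow_le_pow_left₀ (norm_nonneg _) h7 2)
    have k2 := hB r hr h1 (fun ω => G ω - uc * y ω ^ n) (r ^ n * (|Ks| * r)) hDb
    set R1 : ℂ := ∮ ω in C(c, r), E r ω * (exp (β * G ω) - 1 - β * G ω) * deriv y ω with hR1
    set R2 : ℂ := ∮ ω in C(c, r), E r ω * (G ω - uc * y ω ^ n) * deriv y ω with hR2
    set IG : ℂ := ∮ ω in C(c, r), E r ω * G ω * deriv y ω with hIG
    have j1 : R1 = 0 - 0 - β * IG := by
      have e0 : ∮ ω in C(c, r), E r ω * y ω ^ 0 * deriv y ω = 0 := by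
        rw [hI r hr h1 0, zero_add, hfirst, mul_zero]
      have e1 : ∮ ω in C(c, r), E r ω * exp (β * G ω) * deriv y ω = 0 := hZ r hr h1
      have c1 : CircleIntegrable (fun ω => E r ω * exp (β * G ω) * deriv y ω) c r :=
        hci r hr h1 _ hcex
      have c0 : CircleIntegrable (fun ω => E r ω * y ω ^ 0 * deriv y ω) c r :=
        hci r hr h1 _ ((hcy r hr h1).pow 0)
      have c2 : CircleIntegrable (fun ω => β * (E r ω * G ω * deriv y ω)) c r :=
        hci' r hr h1 β G (hcG r hr h1)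
      have e2 : R1 = (∮ ω in C(c, r), E r ω * exp (β * G ω) * deriv y ω) -
          (∮ ω in C(c, r), E r ω * y ω ^ 0 * deriv y ω) -
          ∮ ω in C(c, r), β * (E r ω * G ω * deriv y ω) := by
        have c3 : CircleIntegrable (fun ω => E r ω * exp (β * G ω) * deriv y ω -
            E r ω * y ω ^ 0 * deriv y ω) c r := c1.sub c0
        rw [← circleIntegral.integral_sub c1 c0, ← circleIntegral.integral_sub c3 c2]
        refine circleIntegral.integral_congr hr.le fun ω _ => ?_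
        simp only [pow_zero]
        ring
      rw [e2, e0, e1, circleIntegral.integral_const_mul]
    have j2 : R2 = IG - uc * (2 * Real.pi * I * γ r ^ (n + 1) * Bn (n + 1) (a * ct)) := by
      have c1 : CircleIntegrable (fun ω => E r ω * G ω * deriv y ω) c r :=
        hci r hr h1 G (hcG r hr h1)
      have c2 : CircleIntegrable (fun ω => uc * (E r ω * y ω ^ n * deriv y ω)) c r :=
        hci' r hr h1 uc (fun ω => y ω ^ n) ((hcy r hr h1).pow n)
      rw [← hI r hr h1 n, hIG, ← circleIntegral.integral_const_mul,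
        ← circleIntegral.integral_sub c1 c2]
      refine circleIntegral.integral_congr hr.le fun ω _ => ?_
      ring
    have j3 : β * (uc * (2 * Real.pi * I * γ r ^ (n + 1) * Bn (n + 1) (a * ct))) =
        -R1 - β * R2 := by
      rw [j1, j2]
      ring
    have j4 : a * r * (‖uc‖ * (2 * Real.pi * (a * r * ‖ct‖) ^ (n + 1) *
        ‖Bn (n + 1) (a * ct)‖)) ≤ ‖R1‖ + a * r * ‖R2‖ := by
      have h8 := congrArg norm j3
      have h9 : ‖-R1 - β * R2‖ ≤ ‖R1‖ + a * r * ‖R2‖ := by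
        refine (norm_sub_le _ _).trans ?_
        rw [norm_neg, norm_mul, hβn]
      rw [← h8] at h9
      refine le_trans (le_of_eq ?_) h9
      rw [norm_mul, norm_mul, norm_mul, norm_mul, norm_pow, hγn r hr, norm_mul, Complex.norm_I,
        mul_one, norm_mul, Complex.norm_real, Real.norm_of_nonneg hπ.le, Complex.norm_ofNat, hβn]
    have hrp : 0 < r ^ (n + 2) := pow_pos hr _
    have h6 : (2 * Real.pi * (a * ‖uc‖ * (a * ‖ct‖) ^ (n + 1)) * ‖Bn (n + 1) (a * ct)‖) *
        r ^ (n + 2) ≤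
        (2 * Real.pi * (KE * (a * Kw) ^ 2 * K3 + a * (KE * |Ks| * K3)) * r) * r ^ (n + 2) := by
      have hrn : r ^ n ≤ 1 := pow_le_one₀ hr.le h2
      calc _ = a * r * (‖uc‖ * (2 * Real.pi * (a * r * ‖ct‖) ^ (n + 1) *
            ‖Bn (n + 1) (a * ct)‖)) := by
            rw [show a * r * ‖ct‖ = (a * ‖ct‖) * r by ring, mul_pow (a * ‖ct‖) r]
            ring
        _ ≤ ‖R1‖ + a * r * ‖R2‖ := j4
        _ ≤ 2 * Real.pi * r * (KE * (a * r * (r ^ n * Kw)) ^ 2 * K3) +
            a * r * (2 * Real.pi * r * (KE * (r ^ n * (|Ks| * r)) * K3)) :=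
            add_le_add k1 (mul_le_mul_of_nonneg_left k2 (by positivity))
        _ = (2 * Real.pi * (KE * (a * Kw) ^ 2 * K3) * r * r ^ (n + 2)) * r ^ n +
            (2 * Real.pi * (a * (KE * |Ks| * K3)) * r) * r ^ (n + 2) := by ring
        _ ≤ (2 * Real.pi * (KE * (a * Kw) ^ 2 * K3) * r * r ^ (n + 2)) * 1 +
            (2 * Real.pi * (a * (KE * |Ks| * K3)) * r) * r ^ (n + 2) := by gcongr
        _ = _ := by ring
    exact le_of_mul_le_mul_right h6 hrp
  have h7 : 0 < 2 * Real.pi * (a * ‖uc‖ * (a * ‖ct‖) ^ (n + 1)) := by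
    have := norm_pos_iff.2 huc0
    positivity
  have h8 : ‖Bn (n + 1) (a * ct)‖ ≤ 0 := by
    by_contra hcon
    push Not at hcon
    have := mul_pos h7 hcon
    linarith
  exact norm_le_zero_iff.1 h8

end Pool.Agent.Y618.SC
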